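import Pool.Agent.Lib.H61M.Base

/-! # Chunk A1 of board h61m: replacing a rigid set by a clique. -/

open Classical H47G

namespace H61M

variable {V : Type} {G : SimpleGraph V}

/-- Copy of `H47G.knit_replace` (file `H47G/Massed.lean`): for each label `l` the set
`F l` (connected in `cliq G N`) is replaced by `F l ∪ E l` (`H47G.conn_replace`) if it meets `N`,
where `E` comes from `hr` applied to the labelling of `N` by the sets `F l`
(`φ y = l` if `y ∈ N ∩ F l`; give the vertices of `N` outside all the `F l`, which are not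
needed, any label, and intersect nothing: the `E l` are disjoint anyway). -/
theorem knitall_replace {W N T Z : Finset V} (hr : KnitAll G (W ∪ N) N) (hN : N ⊆ T)
    (hW : Disjoint W T) (h : KnitAll (cliq G N) T Z) : KnitAll G (T ∪ W) Z := by
  intro φ
  obtain ⟨F, h1, h2, h3, h4⟩ := h φ
  -- the labelling of `N`
  obtain ⟨E, e1, e2, e3, e4⟩ := hr fun y ↦ if hy : ∃ l, y ∈ F l then hy.choose else 0
  have e5 : ∀ l, N ∩ F l ⊆ E l := by
    intro l x hx
    obtain ⟨hx1, hx2⟩ := Finset.mem_inter.1 hx
    have hy : ∃ l, x ∈ F l := ⟨l, hx2⟩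
    have h5 := e4 x hx1
    rw [dif_pos hy] at h5
    have h6 : hy.choose = l := by
      by_contra hne
      exact Finset.disjoint_left.1 (h3 _ _ hne) hy.choose_spec hx2
    rwa [h6] at h5
  have hWN : W ∪ N ⊆ T ∪ W := Finset.union_subset Finset.subset_union_right
    (hN.trans Finset.subset_union_left)
  have main : ∀ l, ∃ F', F l ⊆ F' ∧ F' ⊆ F l ∪ E l ∧ Conn G F' := by
    intro l
    by_cases hn : (N ∩ F l).Nonempty
    · exact ⟨F l ∪ E l, Finset.subset_union_left, Finset.Subset.refl _,
        conn_replace (h2 l) (e2 l) (e5 l) hn⟩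
    · refine ⟨F l, Finset.Subset.refl _, Finset.subset_union_left,
        (h2 l).mono fun a ha b hb hab ↦ ?_⟩
      rcases hab.2 with h' | h'
      · exact h'
      · exact absurd ⟨a, Finset.mem_inter.2 ⟨h'.1, ha⟩⟩ hn
  choose F' a1 a2 a3 using main
  refine ⟨F', fun l ↦ ?_, a3, fun l l' hll ↦ ?_, fun z hz ↦ a1 _ (h4 z hz)⟩
  · exact (a2 l).trans (Finset.union_subset ((h1 l).trans Finset.subset_union_left)
      ((e1 l).trans hWN))
  · rw [Finset.disjoint_left]
    intro t ht ht'
    have inN : ∀ l, t ∈ E l → t ∈ T → t ∈ N := by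
      intro l htE htT
      rcases Finset.mem_union.1 (e1 l htE) with h' | h'
      · exact absurd htT (Finset.disjoint_left.1 hW h')
      · exact h'
    rcases Finset.mem_union.1 (a2 l ht) with h' | h' <;>
      rcases Finset.mem_union.1 (a2 l' ht') with h'' | h''
    · exact Finset.disjoint_left.1 (h3 l l' hll) h' h''
    · exact Finset.disjoint_left.1 (e3 l l' hll)
        (e5 l (Finset.mem_inter.2 ⟨inN l' h'' (h1 l h'), h'⟩)) h''
    · exact Finset.disjoint_left.1 (e3 l l' hll) h'
        (e5 l' (Finset.mem_inter.2 ⟨inN l h' (h1 l' h''), h''⟩))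
    · exact Finset.disjoint_left.1 (e3 l l' hll) h' h''

end H61M
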