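import Pool.Agent.Lib.H61M.A8

/-! # Chunk A10 of board h61m: linking the roots to the dense core. -/

open Classical H47G

namespace H61M

variable {V : Type} {G : SimpleGraph V}

/-- If there are `|Z|` disjoint connected subsets of `S` which meet `Z` and `K`, and each
`Z₀ ⊆ K` with at most `x ≥ |Z|` elements is knit in `K`, then `Z` is knit in `S`.
(`H47G.hits` for `Z`, `H47G.first_hit` for `K`: sets `Q z ∋ z` with `Q z ∩ K = {b z}`; apply
`hK` to `Z₀ = {b z}` with the label of `z` for `b z`; drop the labels which are not used by `Z`.) -/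
theorem knit_of_linkage {S Z K : Finset V} {x : ℕ} (hZ : Z ⊆ S) (hKS : K ⊆ S)
    (hx : Z.card ≤ x) (hl : Linkage G S Z K Z.card)
    (hK : ∀ Z₀ ⊆ K, Z₀.card ≤ x → KnitAll G K Z₀) : KnitAll G S Z := by
  obtain ⟨f, f1, f2, f3, f4, f5⟩ := hl
  obtain ⟨z, z1, z2⟩ := hits rfl f f3 f5
  have zf : ∀ i, z i ∈ f i := fun i ↦ (Finset.mem_inter.1 (by simp [z1 i] : z i ∈ f i ∩ Z)).1
  choose Q q1 q2 q3 b q4 using fun i ↦ first_hit (f2 i) (zf i) (f4 i)
  have qb : ∀ i, b i ∈ Q i ∧ b i ∈ K := fun i ↦ Finset.mem_inter.1 (by simp [q4 i])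
  have qd : ∀ i j, i ≠ j → Disjoint (Q i) (Q j) := fun i j h ↦ (f5 i j h).mono (q1 i) (q1 j)
  have binj : ∀ i j, b i = b j → i = j := by
    intro i j hij
    by_contra hne
    exact Finset.disjoint_left.1 (qd i j hne) (qb i).1 (hij ▸ (qb j).1)
  have hZ0 : Finset.univ.image b ⊆ K := by
    intro y hy
    obtain ⟨i, -, rfl⟩ := Finset.mem_image.1 hy
    exact (qb i).2
  have hZ0c : (Finset.univ.image b).card ≤ x := by
    refine (Finset.card_image_le).trans ?_
    rw [Finset.card_univ, Fintype.card_fin]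
    exact hx
  intro φ
  obtain ⟨F, F1, F2, F3, F4⟩ := hK _ hZ0 hZ0c
    (fun y ↦ if h : ∃ i, b i = y then φ (z h.choose) else 0)
  have hbF : ∀ i, b i ∈ F (φ (z i)) := by
    intro i
    have h1 := F4 (b i) (Finset.mem_image.2 ⟨i, Finset.mem_univ _, rfl⟩)
    have h2 : ∃ j, b j = b i := ⟨i, rfl⟩
    have h3 : h2.choose = i := binj _ _ h2.choose_spec
    simp only [dif_pos h2, h3] at h1
    exact h1
  refine ⟨fun l ↦ F l ∪ (Finset.univ.filter fun i ↦ φ (z i) = l).biUnion Q, fun l ↦ ?_,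
    fun l ↦ ?_, fun l l' hll ↦ ?_, fun y hy ↦ ?_⟩
  · refine Finset.union_subset ((F1 l).trans hKS) ?_
    rw [Finset.biUnion_subset]
    exact fun i _ ↦ (q1 i).trans (f1 i)
  · refine (F2 l).biUnion _ _ (fun i _ ↦ q3 i) fun i hi ↦ ⟨b i, ?_⟩
    have h1 := (Finset.mem_filter.1 hi).2
    exact Finset.mem_inter.2 ⟨(qb i).1, h1 ▸ hbF i⟩
  · have cross : ∀ l l' : ℕ, l ≠ l' →
        Disjoint (F l) ((Finset.univ.filter fun i ↦ φ (z i) = l').biUnion Q) := by
      intro l l' hll
      rw [Finset.disjoint_left]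
      intro y hy hy'
      obtain ⟨i, hi, hyi⟩ := Finset.mem_biUnion.1 hy'
      have h1 := (Finset.mem_filter.1 hi).2
      have h2 : y ∈ Q i ∩ K := Finset.mem_inter.2 ⟨hyi, F1 l hy⟩
      rw [q4 i, Finset.mem_singleton] at h2
      subst h2
      exact Finset.disjoint_left.1 (F3 l l' hll) hy (h1 ▸ hbF i)
    simp only [Finset.disjoint_union_left, Finset.disjoint_union_right]
    refine ⟨⟨F3 l l' hll, (cross l' l hll.symm).symm⟩, cross l l' hll, ?_⟩
    rw [Finset.disjoint_left]
    intro y hy hy'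
    obtain ⟨i, hi, hyi⟩ := Finset.mem_biUnion.1 hy
    obtain ⟨j, hj, hyj⟩ := Finset.mem_biUnion.1 hy'
    have h1 := (Finset.mem_filter.1 hi).2
    have h2 := (Finset.mem_filter.1 hj).2
    refine Finset.disjoint_left.1 (qd i j fun h ↦ hll ?_) hyi hyj
    rw [← h1, ← h2, h]
  · obtain ⟨i, rfl⟩ := z2 y hy
    exact Finset.mem_union_right _ (Finset.mem_biUnion.2
      ⟨i, Finset.mem_filter.2 ⟨Finset.mem_univ _, rfl⟩, q2 i⟩)

/-- Menger.  Let `Z` be a set of least cardinality such that `Sep G S X K Z U` for some `U`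
(`Z = X`, `U = ∅` is one, so `|Z| ≤ |X|`).  If `|Z| = |X|`, `H47G.menger` gives `|X|` disjoint
paths from `X` to `K` and `knit_of_linkage` the first alternative.  Otherwise put
`W = S \ (Z ∪ U)`; `W ⊆ S \ X`, `K ⊆ W ∪ Z`, `W ≠ ∅` (`|K| > x > |Z|` because a vertex of `K` has
`x` neighbours in `K`), `nb G S W ⊆ Z` by `Sep.cl`, and `Z ⊆ nb G S W`: by minimality every
`z ∈ Z` lies in `nb G S W` or else in `K` (otherwise `Z.erase z`, `insert z U` is a smaller
separation), and a `z ∈ K` has at least `x > |Z \ {z}|` neighbours in `K`, one of them is in `W`.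
In `W ∪ Z` there are `|Z|` disjoint paths from `Z` to `K`: a smaller separation
`Sep G (W ∪ Z) Z K Z' U'` would give the smaller separation `Z'`, `U ∪ (Z \ Z') ∪ U'` of `X` from
`K` in `S`.  `knit_of_linkage` gives the second alternative. -/
theorem exists_rigid {S X K : Finset V} {x : ℕ} (hX : X ⊆ S) (hKS : K ⊆ S)
    (hKn : K.Nonempty) (hx : X.card ≤ x) (hdeg : ∀ u ∈ K, x ≤ (nb G K {u}).card)
    (hK : ∀ Z ⊆ K, Z.card ≤ x → KnitAll G K Z) :
    KnitAll G S X ∨ ∃ W ⊆ S \ X, W.Nonempty ∧ (nb G S W).card < X.card ∧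
      KnitAll G (W ∪ nb G S W) (nb G S W) := by
  -- a smallest separator
  let T := S.powerset.filter fun Z ↦ ∃ U, Sep G S X K Z U
  have hT : T.Nonempty := ⟨X, by
    simp only [T, Finset.mem_filter, Finset.mem_powerset]
    exact ⟨hX, ∅, hX, Finset.empty_subset _, by simp, Finset.disjoint_empty_left _,
      fun a ha ↦ absurd ha (Finset.notMem_empty a)⟩⟩
  obtain ⟨Z, hZT, hmin'⟩ := T.exists_min_image Finset.card hT
  obtain ⟨hZS, U, hs⟩ := by simpa only [T, Finset.mem_filter, Finset.mem_powerset] using hZT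
  have hmin : ∀ Z' U', Sep G S X K Z' U' → Z.card ≤ Z'.card := by
    intro Z' U' hs'
    refine hmin' Z' ?_
    simp only [T, Finset.mem_filter, Finset.mem_powerset]
    exact ⟨hs'.zs, U', hs'⟩
  rcases Nat.lt_or_ge Z.card X.card with hlt | hge
  · right
    have hZx : Z.card < x := lt_of_lt_of_le hlt hx
    set W := S \ (Z ∪ U) with hW
    have memW : ∀ y, y ∈ W ↔ y ∈ S ∧ y ∉ Z ∧ y ∉ U := by
      intro y
      rw [hW, Finset.mem_sdiff, Finset.mem_union, not_or]
    have hKW : ∀ y ∈ K, y ∉ Z → y ∈ W := by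
      intro y hy hyZ
      exact (memW y).2 ⟨hKS hy, hyZ, fun h ↦ Finset.disjoint_left.1 hs.ub h hy⟩
    -- a vertex of `K` has a neighbour in `W`
    have hnbW : ∀ u ∈ K, ∃ y ∈ W, G.Adj u y := by
      intro u hu
      have h1 : ¬ nb G K {u} ⊆ Z := by
        intro h2
        have h3 := Finset.card_le_card h2
        have h4 := hdeg u hu
        omega
      obtain ⟨y, hy, hyZ⟩ := Finset.not_subset.1 h1
      obtain ⟨h2, -, w, hw, hwy⟩ := mem_nb.1 hy
      rw [Finset.mem_singleton] at hw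
      subst hw
      exact ⟨y, hKW y h2 hyZ, hwy⟩
    have hnb : nb G S W = Z := by
      ext y
      constructor
      · intro hy
        obtain ⟨h1, h2, w, hw, hwy⟩ := mem_nb.1 hy
        obtain ⟨w1, w2, w3⟩ := (memW w).1 hw
        by_contra hyZ
        have hyU : y ∈ U := by
          by_contra hyU
          exact h2 ((memW y).2 ⟨h1, hyZ, hyU⟩)
        exact hs.cl y hyU w w1 w2 w3 hwy.symm
      · intro hy
        have hyW : y ∉ W := fun h ↦ ((memW y).1 h).2.1 hy
        by_cases hyK : y ∈ K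
        · obtain ⟨w, hw, hwy⟩ := hnbW y hyK
          exact mem_nb.2 ⟨hZS hy, hyW, w, hw, hwy.symm⟩
        · by_contra hyn
          have hno : ∀ w ∈ W, ¬ G.Adj y w := fun w hw h ↦
            hyn (mem_nb.2 ⟨hZS hy, hyW, w, hw, h.symm⟩)
          have h1 := hmin (Z.erase y) (insert y U)
            ⟨(Finset.erase_subset _ _).trans hZS, ?_, ?_, ?_, ?_⟩
          · rw [Finset.card_erase_of_mem hy] at h1
            have h2 := Finset.card_pos.2 ⟨y, hy⟩
            omega
          · intro a ha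
            rcases Finset.mem_insert.1 ha with rfl | ha
            · exact Finset.mem_sdiff.2 ⟨hZS hy, Finset.notMem_erase _ _⟩
            · obtain ⟨h3, h4⟩ := Finset.mem_sdiff.1 (hs.us ha)
              exact Finset.mem_sdiff.2 ⟨h3, fun h ↦ h4 (Finset.mem_of_mem_erase h)⟩
          · intro a ha
            obtain ⟨h3, h4⟩ := Finset.mem_sdiff.1 ha
            by_cases hay : a = y
            · exact Finset.mem_insert.2 (Or.inl hay)
            · exact Finset.mem_insert_of_mem (hs.au (Finset.mem_sdiff.2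
                ⟨h3, fun h ↦ h4 (Finset.mem_erase.2 ⟨hay, h⟩)⟩))
          · rw [Finset.disjoint_left]
            intro a ha haK
            rcases Finset.mem_insert.1 ha with rfl | ha
            · exact hyK haK
            · exact Finset.disjoint_left.1 hs.ub ha haK
          · intro a ha b hb hbZ hbU
            have hby : b ≠ y := fun h ↦ hbU (Finset.mem_insert.2 (Or.inl h))
            have hbU' : b ∉ U := fun h ↦ hbU (Finset.mem_insert_of_mem h)
            have hbZ' : b ∉ Z := fun h ↦ hbZ (Finset.mem_erase.2 ⟨hby, h⟩)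
            rcases Finset.mem_insert.1 ha with rfl | ha
            · exact hno b ((memW b).2 ⟨hb, hbZ', hbU'⟩)
            · exact hs.cl a ha b hb hbZ' hbU'
    refine ⟨W, fun y hy ↦ ?_, ?_, ?_, ?_⟩
    · obtain ⟨h1, h2, h3⟩ := (memW y).1 hy
      exact Finset.mem_sdiff.2 ⟨h1, fun h ↦ h3 (hs.au (Finset.mem_sdiff.2 ⟨h, h2⟩))⟩
    · obtain ⟨u, hu⟩ := hKn
      obtain ⟨y, hy, -⟩ := hnbW u hu
      exact ⟨y, hy⟩
    · rw [hnb]
      exact hlt
    · rw [hnb]
      have hZW : Z ⊆ W ∪ Z := Finset.subset_union_right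
      have hKWZ : K ⊆ W ∪ Z := by
        intro y hy
        by_cases hyZ : y ∈ Z
        · exact Finset.mem_union_right _ hyZ
        · exact Finset.mem_union_left _ (hKW y hy hyZ)
      refine knit_of_linkage hZW hKWZ hZx.le (menger hZW hKWZ fun Z' U' hs' ↦ ?_) hK
      refine hmin Z' (U ∪ U') ⟨?_, ?_, ?_, ?_, ?_⟩
      · refine hs'.zs.trans (Finset.union_subset ?_ hZS)
        exact fun y hy ↦ ((memW y).1 hy).1
      · intro a ha
        rcases Finset.mem_union.1 ha with ha | ha
        · obtain ⟨h1, h2⟩ := Finset.mem_sdiff.1 (hs.us ha)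
          refine Finset.mem_sdiff.2 ⟨h1, fun h ↦ ?_⟩
          rcases Finset.mem_union.1 (hs'.zs h) with h | h
          · exact ((memW a).1 h).2.2 ha
          · exact h2 h
        · obtain ⟨h1, h2⟩ := Finset.mem_sdiff.1 (hs'.us ha)
          refine Finset.mem_sdiff.2 ⟨?_, h2⟩
          rcases Finset.mem_union.1 h1 with h | h
          · exact ((memW a).1 h).1
          · exact hZS h
      · intro a ha
        obtain ⟨h1, h2⟩ := Finset.mem_sdiff.1 ha
        by_cases haZ : a ∈ Z
        · exact Finset.mem_union_right _ (hs'.au (Finset.mem_sdiff.2 ⟨haZ, h2⟩))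
        · exact Finset.mem_union_left _ (hs.au (Finset.mem_sdiff.2 ⟨h1, haZ⟩))
      · exact Finset.disjoint_union_left.2 ⟨hs.ub, hs'.ub⟩
      · intro a ha b hb hbZ hbU
        rw [Finset.mem_union, not_or] at hbU
        have hbZ' : b ∉ Z := fun h ↦ hbU.2 (hs'.au (Finset.mem_sdiff.2 ⟨h, hbZ⟩))
        rcases Finset.mem_union.1 ha with ha | ha
        · exact hs.cl a ha b hb hbZ' hbU.1
        · exact hs'.cl a ha b
            (Finset.mem_union_left _ ((memW b).2 ⟨hb, hbZ', hbU.1⟩)) hbZ hbU.2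
  · left
    exact knit_of_linkage hX hKS hx
      (menger hX hKS fun Z' U' hs' ↦ hge.trans (hmin Z' U' hs')) hK

end H61M
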