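import Pool.Agent.Lib.H61M.A5

/-! # Chunk A7 of board h61m: deletion of an edge. -/

open Classical H47G

namespace H61M

variable {V : Type} {G : SimpleGraph V} {x m : ℕ} {X H : Finset V}

/-- Copy of `H47G.del_bound` (file `H47G/Final.lean`), with `noDenseA`; one needs `1 ≤ m` or
`X.card ≤ x ≤ m` exactly where the original uses `hM.card`. -/
theorem del_boundA (ih : IHA V x m H.card) (hx : X.card ≤ x)
    (ih2 : ∀ G' : SimpleGraph V, (pairs G' (X ∪ H)).card < (pairs G (X ∪ H)).card →
      Massed m G' X H → KnitAll G' (X ∪ H) X)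
    (hM : Massed m G X H) (hK : ¬ KnitAll G (X ∪ H) X) :
    (P G (X ∪ H) H).card ≤ 2 * m * H.card + 2 := by
  by_contra hlt
  push Not at hlt
  set S := X ∪ H with hS
  have hHS : H ⊆ S := Finset.subset_union_right
  -- an edge inside `H`
  have hE : ∃ u ∈ H, ∃ v ∈ H, G.Adj u v := by
    by_contra hno
    push Not at hno
    have h1 : P G S H ⊆ (H ×ˢ X) ∪ (X ×ˢ H) := by
      rintro ⟨a, b⟩ hab
      obtain ⟨h1, h2, h3, h4⟩ := mem_P.1 hab
      simp only at h1 h2 h3 h4
      simp only [Finset.mem_union, Finset.mem_product]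
      rcases h4 with h4 | h4
      · left
        refine ⟨h4, ?_⟩
        rcases Finset.mem_union.1 h2 with h | h
        · exact h
        · exact absurd h3 (hno a h4 b h)
      · right
        refine ⟨?_, h4⟩
        rcases Finset.mem_union.1 h1 with h | h
        · exact h
        · exact absurd h3 (hno a h b h4)
    have h2 := (Finset.card_le_card h1).trans (Finset.card_union_le _ _)
    rw [Finset.card_product, Finset.card_product] at h2
    have h3 : H.card * X.card ≤ H.card * m := Nat.mul_le_mul_left _ hM.card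
    have h4 : X.card * H.card = H.card * X.card := mul_comm _ _
    have h5 : 2 * m * H.card = 2 * (H.card * m) := by ring
    omega
  obtain ⟨u, hu, v, hv, huv⟩ := hE
  have hmem : (u, v) ∈ pairs G S := mem_pairs.2 ⟨⟨hHS hu, hHS hv⟩, huv⟩
  have hdel : ∀ a b : V, (G.deleteEdges {s(u, v)}).Adj a b ↔
      G.Adj a b ∧ ¬ ((a = u ∧ b = v) ∨ (a = v ∧ b = u)) := by
    intro a b
    rw [SimpleGraph.deleteEdges_adj, Set.mem_singleton_iff, Sym2.eq_iff]
  have hM' : Massed m (G.deleteEdges {s(u, v)}) X H := by
    refine ⟨hM.disj, hM.card, ?_, fun W hW hW' ↦ ?_⟩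
    · have h1 : P G S H ⊆ P (G.deleteEdges {s(u, v)}) S H ∪ {(u, v), (v, u)} := by
        rintro ⟨a, b⟩ hab
        obtain ⟨h1, h2, h3, h4⟩ := mem_P.1 hab
        simp only at h1 h2 h3 h4
        by_cases h : (a = u ∧ b = v) ∨ (a = v ∧ b = u)
        · refine Finset.mem_union_right _ ?_
          simp only [Finset.mem_insert, Finset.mem_singleton, Prod.mk.injEq]
          exact h
        · exact Finset.mem_union_left _ (mem_P.2 ⟨h1, h2, (hdel a b).2 ⟨h3, h⟩, h4⟩)
      have h2 := (Finset.card_le_card h1).trans (Finset.card_union_le _ _)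
      have h3 : ({(u, v), (v, u)} : Finset (V × V)).card ≤ 2 := Finset.card_le_two
      rw [← hS]
      omega
    · rw [← hS] at hW' ⊢
      have h1 : P (G.deleteEdges {s(u, v)}) S W ⊆ P G S W := by
        rintro ⟨a, b⟩ hab
        obtain ⟨h1, h2, h3, h4⟩ := mem_P.1 hab
        exact mem_P.2 ⟨h1, h2, ((hdel a b).1 h3).1, h4⟩
      refine (Finset.card_le_card h1).trans ?_
      by_cases hlt' : (nb G S W).card < X.card
      · exact hM.m2 W hW hlt'
      · have hne : W ≠ H := by
          rintro rfl
          apply hlt'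
          refine (Finset.card_le_card ?_).trans_lt hW'
          intro y hy
          obtain ⟨h1, h2, w, hw, hwy⟩ := mem_nb.1 hy
          refine mem_nb.2 ⟨h1, h2, w, hw, (hdel w y).2 ⟨hwy, ?_⟩⟩
          rintro (h | h)
          · exact h2 (h.2 ▸ hv)
          · exact h2 (h.2 ▸ hu)
        refine noDenseA ih hx hM hK W hW hne ?_
        have h2 : nb G S W ⊆
            insert (if u ∈ W then v else u) (nb (G.deleteEdges {s(u, v)}) S W) := by
          intro y hy
          obtain ⟨h1, h2, w, hw, hwy⟩ := mem_nb.1 hy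
          by_cases h : (w = u ∧ y = v) ∨ (w = v ∧ y = u)
          · refine Finset.mem_insert.2 (Or.inl ?_)
            rcases h with ⟨rfl, rfl⟩ | ⟨rfl, rfl⟩
            · rw [if_pos hw]
            · rw [if_neg h2]
          · exact Finset.mem_insert_of_mem (mem_nb.2 ⟨h1, h2, w, hw, (hdel w y).2 ⟨hwy, h⟩⟩)
        have h3 := (Finset.card_le_card h2).trans (Finset.card_insert_le _ _)
        rw [← hS]
        omega
  exact hK ((ih2 _ (pairs_deleteEdges_card_lt hmem) hM').mono (Finset.Subset.refl _) fun a b h ↦ ((hdel a b).1 h).1)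

end H61M
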