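import Pool.Agent.Lib.H61M.Base

/-! # Chunk A9 of board h61m: the dense core. -/

open Classical H47G

namespace H61M

variable {V : Type} {G : SimpleGraph V}

private theorem a9_reach {u : V} {T N : Finset V} {y : V} (hN : N ⊆ T)
    (hadj : ∀ c ∈ N, G.Adj u c) (hy : y ∈ T) (h : y ∈ N ∨ ∃ c ∈ N, G.Adj c y) :
    ∃ P ⊆ T, y ∈ P ∧ P.card ≤ 2 ∧ Conn G (insert u P) := by
  rcases h with h | ⟨c, hc, hcy⟩
  · exact ⟨{y}, by simpa using hy, by simp, by simp, conn_pair (hadj y h)⟩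
  · refine ⟨{c, y}, ?_, by simp, Finset.card_le_two, ?_⟩
    · intro z hz
      rcases Finset.mem_insert.1 hz with rfl | hz
      · exact hN hc
      · rw [Finset.mem_singleton.1 hz]
        exact hy
    · have h1 := (conn_pair hcy).insert (b := u) (a := c) (by simp) (hadj c hc).symm
      exact h1

private theorem a9_common {u w y : V} {K B : Finset V} (hy : y ∈ K) (hyB : y ∉ B)
    (hu : G.Adj u y) (hw : G.Adj w y) :
    ∃ Q ⊆ K, Q.card ≤ 4 ∧ Disjoint Q B ∧ Conn G (insert u (insert w Q)) := by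
  refine ⟨{y}, by simpa using hy, by simp, by simpa using hyB, ?_⟩
  have h1 : Conn G (insert w {y}) := conn_pair hw
  exact h1.insert (a := y) (by simp) hu.symm

private theorem a9_sdiff {N B D : Finset V} (hN : N ⊆ D) :
    N.card ≤ (N \ B).card + (B ∩ D).card := by
  have h1 : N ⊆ (N \ B) ∪ (B ∩ D) := by
    intro z hz
    by_cases hb : z ∈ B
    · exact Finset.mem_union_right _ (Finset.mem_inter.2 ⟨hb, hN hz⟩)
    · exact Finset.mem_union_left _ (Finset.mem_sdiff.2 ⟨hz, hb⟩)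
  exact (Finset.card_le_card h1).trans (Finset.card_union_le _ _)

/-- No small cut: `K = D` works.  Let `u, w ∈ D`, `|B| ≤ 5x`.  If `u = w` or `u`, `w` have a
common neighbour in `D \ B`, clear.  Otherwise `N₁ = nb G D {u} \ B` and `M₁ = nb G D {w} \ B` are
disjoint, of size at least `m - 6x` each, so `D \ (B ∪ N₁ ∪ M₁)` has at most `7x + 1` elements
(`|D \ B| - |N₁| - |M₁|`, count with `|B ∩ D|`), and every `y ∈ D \ B` has a neighbour in
`N₁ ∪ M₁` (`m - x - 5x - (7x + 1) > 0`).  Let `N₂` (`M₂`) be the set of the `y ∈ D \ B` which are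
in `N₁` or have a neighbour in `N₁` (in `M₁`).  `N₂ ∪ M₂ = D \ B`.  If `N₂` and `M₂` intersect in
`y`: path `u c y c' w`.  If there is an edge `y y'` from `N₂` to `M₂`: path `u c y y' c' w`.
Otherwise `N₂`, `M₂` contradict `hcut`. -/
theorem core_of_no_cut {D : Finset V} {x m : ℕ} (hx : 1 ≤ x) (hm : 23 * x ≤ m)
    (hc : D.card ≤ 2 * m + 1) (hdeg : ∀ u ∈ D, m ≤ (nb G D {u}).card + x)
    (hcut : ∀ A B : Finset V, A ⊆ D → B ⊆ D → A.Nonempty → B.Nonempty → Disjoint A B →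
      (∀ a ∈ A, ∀ b ∈ B, ¬ G.Adj a b) → 5 * x < (D \ (A ∪ B)).card) : Link4 G D x := by
  intro u hu w hw B hB
  have hBD : (B ∩ D).card ≤ 5 * x := (Finset.card_le_card Finset.inter_subset_left).trans hB
  have hnbD : ∀ v, nb G D {v} ⊆ D := fun v y hy ↦ (mem_nb.1 hy).1
  have hnbA : ∀ v, ∀ y ∈ nb G D {v}, G.Adj v y := by
    intro v y hy
    obtain ⟨-, -, a, ha, hay⟩ := mem_nb.1 hy
    rw [Finset.mem_singleton.1 ha] at hay
    exact hay
  have hcardN : ∀ v ∈ D, m ≤ (nb G D {v} \ B).card + x + (B ∩ D).card := by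
    intro v hv
    have h1 := hdeg v hv
    have h2 := a9_sdiff (B := B) (hnbD v)
    omega
  have hNT : ∀ v, nb G D {v} \ B ⊆ D \ B := fun v ↦ Finset.sdiff_subset_sdiff (hnbD v)
    (Finset.Subset.refl _)
  have hNadj : ∀ v, ∀ y ∈ nb G D {v} \ B, G.Adj v y := fun v y hy ↦
    hnbA v y (Finset.mem_sdiff.1 hy).1
  by_cases hcom : ∃ y ∈ nb G D {u} \ B, y ∈ nb G D {w} \ B
  · obtain ⟨y, hy1, hy2⟩ := hcom
    have hyT := Finset.mem_sdiff.1 (hNT u hy1)
    exact a9_common hyT.1 hyT.2 (hNadj u y hy1) (hNadj w y hy2)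
  have hdis : Disjoint (nb G D {u} \ B) (nb G D {w} \ B) := by
    rw [Finset.disjoint_left]
    intro y h1 h2
    exact hcom ⟨y, h1, h2⟩
  have hTc : (D \ B).card + (B ∩ D).card = D.card := by
    rw [Finset.inter_comm]
    exact Finset.card_sdiff_add_card_inter D B
  have hO : ((D \ B) \ ((nb G D {u} \ B) ∪ (nb G D {w} \ B))).card ≤ 7 * x + 1 := by
    have h1 := hcardN u hu
    have h2 := hcardN w hw
    have h3 := Finset.card_union_of_disjoint hdis
    have h4 : ((D \ B) \ ((nb G D {u} \ B) ∪ (nb G D {w} \ B))).card =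
        (D \ B).card - ((nb G D {u} \ B) ∪ (nb G D {w} \ B)).card :=
      Finset.card_sdiff_of_subset (Finset.union_subset (hNT u) (hNT w))
    omega
  have hev : ∀ y ∈ D \ B, ∃ c ∈ (nb G D {u} \ B) ∪ (nb G D {w} \ B), G.Adj c y := by
    intro y hy
    by_contra hne
    have hsub : nb G D {y} \ B ⊆ (D \ B) \ ((nb G D {u} \ B) ∪ (nb G D {w} \ B)) := by
      intro c hc
      refine Finset.mem_sdiff.2 ⟨hNT y hc, fun hcN ↦ hne ⟨c, hcN, (hNadj y c hc).symm⟩⟩
    have h1 := Finset.card_le_card hsub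
    have h2 := hcardN y (Finset.mem_sdiff.1 hy).1
    omega
  set N := nb G D {u} \ B with hNdef
  set M := nb G D {w} \ B with hMdef
  have key : ∀ y ∈ D \ B, ∀ y' ∈ D \ B, (y ∈ N ∨ ∃ c ∈ N, G.Adj c y) →
      (y' ∈ M ∨ ∃ c ∈ M, G.Adj c y') → (y = y' ∨ G.Adj y y') →
      ∃ Q ⊆ D, Q.card ≤ 4 ∧ Disjoint Q B ∧ Conn G (insert u (insert w Q)) := by
    intro y hy y' hy' h1 h2 h3
    obtain ⟨P, hP, hyP, hPc, hPC⟩ := a9_reach (hNT u) (hNadj u) hy h1
    obtain ⟨P', hP', hyP', hPc', hPC'⟩ := a9_reach (hNT w) (hNadj w) hy' h2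
    refine ⟨P ∪ P', (Finset.union_subset hP hP').trans Finset.sdiff_subset, ?_, ?_, ?_⟩
    · exact (Finset.card_union_le _ _).trans (by omega)
    · exact Finset.disjoint_of_subset_left (Finset.union_subset hP hP') Finset.sdiff_disjoint
    · have hc1 : Conn G (insert u P ∪ insert w P') := by
        rcases h3 with rfl | h3
        · exact hPC.union hPC' ⟨y, Finset.mem_inter.2 ⟨Finset.mem_insert_of_mem hyP,
            Finset.mem_insert_of_mem hyP'⟩⟩
        · have h4 := (hPC.insert (Finset.mem_insert_of_mem hyP) h3).union hPC'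
            ⟨y', Finset.mem_inter.2 ⟨Finset.mem_insert_self _ _, Finset.mem_insert_of_mem hyP'⟩⟩
          have e : insert y' (insert u P) ∪ insert w P' = insert u P ∪ insert w P' := by
            rw [Finset.insert_union]
            exact Finset.insert_eq_self.2 (Finset.mem_union_right _
              (Finset.mem_insert_of_mem hyP'))
          rwa [e] at h4
      have e : insert u P ∪ insert w P' = insert u (insert w (P ∪ P')) := by
        rw [Finset.insert_union, Finset.union_insert]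
      rwa [e] at hc1
  by_contra hcon
  have hN0 : N.Nonempty := by
    rw [← Finset.card_pos]
    have : m ≤ N.card + x + (B ∩ D).card := hcardN u hu
    omega
  have hM0 : M.Nonempty := by
    rw [← Finset.card_pos]
    have : m ≤ M.card + x + (B ∩ D).card := hcardN w hw
    omega
  have hc5 := hcut ((D \ B).filter fun y ↦ y ∈ N ∨ ∃ c ∈ N, G.Adj c y)
    ((D \ B).filter fun y ↦ y ∈ M ∨ ∃ c ∈ M, G.Adj c y)
    ((Finset.filter_subset _ _).trans Finset.sdiff_subset)
    ((Finset.filter_subset _ _).trans Finset.sdiff_subset)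
    (hN0.imp fun y hy ↦ Finset.mem_filter.2 ⟨hNT u hy, Or.inl hy⟩)
    (hM0.imp fun y hy ↦ Finset.mem_filter.2 ⟨hNT w hy, Or.inl hy⟩)
    (by
      rw [Finset.disjoint_left]
      intro y h1 h2
      obtain ⟨h1, h1'⟩ := Finset.mem_filter.1 h1
      obtain ⟨h2, h2'⟩ := Finset.mem_filter.1 h2
      exact hcon (key y h1 y h2 h1' h2' (Or.inl rfl)))
    (by
      intro y hy y' hy' hadj
      obtain ⟨h1, h1'⟩ := Finset.mem_filter.1 hy
      obtain ⟨h2, h2'⟩ := Finset.mem_filter.1 hy'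
      exact hcon (key y h1 y' h2 h1' h2' (Or.inr hadj)))
  have hsub : D \ (((D \ B).filter fun y ↦ y ∈ N ∨ ∃ c ∈ N, G.Adj c y) ∪
      ((D \ B).filter fun y ↦ y ∈ M ∨ ∃ c ∈ M, G.Adj c y)) ⊆ B := by
    intro y hy
    obtain ⟨hyD, hy⟩ := Finset.mem_sdiff.1 hy
    by_contra hyB
    have hyT : y ∈ D \ B := Finset.mem_sdiff.2 ⟨hyD, hyB⟩
    obtain ⟨c, hc, hcy⟩ := hev y hyT
    apply hy
    rcases Finset.mem_union.1 hc with hc | hc
    · exact Finset.mem_union_left _ (Finset.mem_filter.2 ⟨hyT, Or.inr ⟨c, hc, hcy⟩⟩)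
    · exact Finset.mem_union_right _ (Finset.mem_filter.2 ⟨hyT, Or.inr ⟨c, hc, hcy⟩⟩)
  have := Finset.card_le_card hsub
  omega

/-- A small cut: let `A` be the smaller side, so `|A| ≤ m`.  All neighbours in `D` of `u ∈ A` are in
`A` or in the cut, so `u` has at least `m - 6x` neighbours in `A`, and at most `6x` vertices of
`A` (with `u`) are not neighbours of `u`.  Two vertices of `A` have at least
`|A| - 12x ≥ m - 6x + 1 - 12x > 5x` common neighbours in `A`: `Link4` with one vertex. -/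
theorem core_of_cut {D A B : Finset V} {x m : ℕ} (hx : 1 ≤ x) (hm : 23 * x ≤ m)
    (hc : D.card ≤ 2 * m + 1) (hdeg : ∀ u ∈ D, m ≤ (nb G D {u}).card + x)
    (hA : A ⊆ D) (hB : B ⊆ D) (hAn : A.Nonempty) (hd : Disjoint A B)
    (hno : ∀ a ∈ A, ∀ b ∈ B, ¬ G.Adj a b) (hcut : (D \ (A ∪ B)).card ≤ 5 * x)
    (hle : A.card ≤ B.card) :
    Link4 G A x ∧ ∀ u ∈ A, x ≤ (nb G A {u}).card := by
  have hcA : A.card ≤ m := by
    have h1 : (A ∪ B).card = A.card + B.card := Finset.card_union_of_disjoint hd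
    have h2 := Finset.card_le_card (Finset.union_subset hA hB)
    omega
  have hnbA : ∀ v, nb G A {v} ⊆ A := fun v y hy ↦ (mem_nb.1 hy).1
  have hadj : ∀ v, ∀ y ∈ nb G A {v}, G.Adj v y := by
    intro v y hy
    obtain ⟨-, -, a, ha, hay⟩ := mem_nb.1 hy
    rw [Finset.mem_singleton.1 ha] at hay
    exact hay
  have hN : ∀ u ∈ A, m ≤ (nb G A {u}).card + 6 * x := by
    intro u hu
    have hsub : nb G D {u} ⊆ nb G A {u} ∪ (D \ (A ∪ B)) := by
      intro y hy
      obtain ⟨hyD, hyu, a, ha, hay⟩ := mem_nb.1 hy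
      by_cases hyA : y ∈ A
      · exact Finset.mem_union_left _ (mem_nb.2 ⟨hyA, hyu, a, ha, hay⟩)
      · refine Finset.mem_union_right _ (Finset.mem_sdiff.2 ⟨hyD, fun h ↦ ?_⟩)
        rcases Finset.mem_union.1 h with h | h
        · exact hyA h
        · rw [Finset.mem_singleton.1 ha] at hay
          exact hno u hu y h hay
    have h1 := (Finset.card_le_card hsub).trans (Finset.card_union_le _ _)
    have h2 := hdeg u (hA hu)
    omega
  refine ⟨?_, fun u hu ↦ ?_⟩
  · intro u hu w hw C hC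
    have h1 := hN u hu
    have h2 := hN w hw
    have h3 := Finset.card_union_add_card_inter (nb G A {u}) (nb G A {w})
    have h4 := Finset.card_le_card (Finset.union_subset (hnbA u) (hnbA w))
    have h5 : C.card < (nb G A {u} ∩ nb G A {w}).card := by omega
    obtain ⟨y, hy, hyC⟩ := Finset.exists_mem_notMem_of_card_lt_card h5
    obtain ⟨hy1, hy2⟩ := Finset.mem_inter.1 hy
    exact a9_common (hnbA u hy1) hyC (hadj u y hy1) (hadj w y hy2)
  · have := hN u hu
    omega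

/-- The dense core. -/
theorem dense_core {D : Finset V} {x m : ℕ} (hx : 1 ≤ x) (hm : 23 * x ≤ m) (hD : D.Nonempty)
    (hc : D.card ≤ 2 * m + 1) (hdeg : ∀ u ∈ D, m ≤ (nb G D {u}).card + x) :
    ∃ K ⊆ D, K.Nonempty ∧ Link4 G K x ∧ ∀ u ∈ K, x ≤ (nb G K {u}).card := by
  by_cases h : ∃ A B : Finset V, A ⊆ D ∧ B ⊆ D ∧ A.Nonempty ∧ B.Nonempty ∧ Disjoint A B ∧
      (∀ a ∈ A, ∀ b ∈ B, ¬ G.Adj a b) ∧ (D \ (A ∪ B)).card ≤ 5 * x
  · obtain ⟨A, B, hA, hB, hAn, hBn, hd, hno, hcut⟩ := h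
    rcases le_total A.card B.card with hle | hle
    · obtain ⟨h1, h2⟩ := core_of_cut hx hm hc hdeg hA hB hAn hd hno hcut hle
      exact ⟨A, hA, hAn, h1, h2⟩
    · obtain ⟨h1, h2⟩ := core_of_cut hx hm hc hdeg hB hA hBn hd.symm
        (fun b hb a ha hab ↦ hno a ha b hb hab.symm) (by rwa [Finset.union_comm]) hle
      exact ⟨B, hB, hBn, h1, h2⟩
  · push Not at h
    refine ⟨D, Finset.Subset.refl _, hD, core_of_no_cut hx hm hc hdeg
      (fun A B hA hB hAn hBn hd hno ↦ h A B hA hB hAn hBn hd hno), fun u hu ↦ ?_⟩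
    have := hdeg u hu
    omega

end H61M
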