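import Pool.Agent.Lib.H61M.A6
import Pool.Agent.Lib.H61M.A7
import Pool.Agent.Lib.H61M.A9
import Pool.Agent.Lib.H61M.A10

/-! # Chunk A11 of board h61m: the theorem on massed pairs. -/

open Classical H47G

namespace H61M

variable {V : Type} {G : SimpleGraph V} {x m : ℕ} {X H : Finset V}

/-- A vertex of `H` without neighbours can be deleted. -/
theorem isolated (ih : IHA V x m H.card) (hx : X.card ≤ x) (hM : Massed m G X H) {v : V}
    (hv : v ∈ H) (hno : nb G (X ∪ H) {v} = ∅) : KnitAll G (X ∪ H) X := by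
  have hvX : v ∉ X := fun h ↦ Finset.disjoint_left.1 hM.disj h hv
  have hadj : ∀ y ∈ X ∪ H, ¬ G.Adj v y := by
    intro y hy hvy
    have h1 : y ∈ nb G (X ∪ H) {v} :=
      mem_nb.2 ⟨hy, fun h ↦ hvy.ne (Finset.mem_singleton.1 h).symm, v,
        Finset.mem_singleton_self v, hvy⟩
    rw [hno] at h1
    exact Finset.notMem_empty y h1
  have hvS : v ∈ X ∪ H := Finset.mem_union_right _ hv
  have hsub : X ∪ H.erase v ⊆ X ∪ H :=
    Finset.union_subset_union (Finset.Subset.refl _) (Finset.erase_subset v H)
  have memS : ∀ y, y ∈ X ∪ H → y ≠ v → y ∈ X ∪ H.erase v := by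
    intro y hy hne
    rcases Finset.mem_union.1 hy with h | h
    · exact Finset.mem_union_left _ h
    · exact Finset.mem_union_right _ (Finset.mem_erase.2 ⟨hne, h⟩)
  have hnb : ∀ W ⊆ H.erase v, nb G (X ∪ H.erase v) W = nb G (X ∪ H) W := by
    intro W hW
    ext y
    rw [mem_nb, mem_nb]
    constructor
    · rintro ⟨h1, h2, h3⟩
      exact ⟨hsub h1, h2, h3⟩
    · rintro ⟨h1, h2, w, hw, hwy⟩
      refine ⟨memS y h1 ?_, h2, w, hw, hwy⟩
      rintro rfl
      exact hadj w (Finset.mem_union_right _ (Finset.mem_of_mem_erase (hW hw))) hwy.symm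
  have hP : ∀ W ⊆ H.erase v, P G (X ∪ H.erase v) W = P G (X ∪ H) W := by
    intro W hW
    ext ⟨a, b⟩
    rw [mem_P, mem_P]
    constructor
    · rintro ⟨h1, h2, h3, h4⟩
      exact ⟨hsub h1, hsub h2, h3, h4⟩
    · rintro ⟨h1, h2, h3, h4⟩
      simp only at h1 h2 h3 h4
      refine ⟨memS a h1 ?_, memS b h2 ?_, h3, h4⟩
      · rintro rfl
        exact hadj b h2 h3
      · rintro rfl
        exact hadj a h1 h3.symm
  have hPH : P G (X ∪ H) H ⊆ P G (X ∪ H) (H.erase v) := by
    rintro ⟨a, b⟩ hab
    obtain ⟨h1, h2, h3, h4⟩ := mem_P.1 hab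
    simp only at h1 h2 h3 h4
    refine mem_P.2 ⟨h1, h2, h3, ?_⟩
    rcases h4 with h | h
    · left
      refine Finset.mem_erase.2 ⟨?_, h⟩
      rintro rfl
      exact hadj b h2 h3
    · right
      refine Finset.mem_erase.2 ⟨?_, h⟩
      rintro rfl
      exact hadj a h1 h3.symm
  have hM' : Massed m G X (H.erase v) := by
    refine ⟨hM.disj.mono_right (Finset.erase_subset v H), hM.card, ?_, fun W hW hW' ↦ ?_⟩
    · rw [hP _ (Finset.Subset.refl _)]
      have h1 := hM.m1
      have h2 := Finset.card_le_card hPH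
      have h3 : 2 * m * (H.erase v).card ≤ 2 * m * H.card :=
        Nat.mul_le_mul_left _ (Finset.card_le_card (Finset.erase_subset v H))
      omega
    · rw [hnb W hW] at hW'
      rw [hP W hW]
      exact hM.m2 W (hW.trans (Finset.erase_subset v H)) hW'
  exact (ih G X (H.erase v) (Finset.card_erase_lt_of_mem hv) hx hM').mono hsub
    fun a b h ↦ h

/-- Double induction as in `H47G.massed_knit_aux` (file `H47G/Final.lean`).  In the step:
`H47G.lowdeg` and `del_boundA` give `v ∈ H` with at most `2m + 1` neighbours in `S = X ∪ H`; it has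
a neighbour by `isolated`.  Let `D = nb G S {v} \ X`.  For `u ∈ D`, `Cm G X H u v` has at least
`m` elements (`commonA`), they are neighbours of `u` and `v`, at most `x` of them in `X`, so
`m ≤ |nb G D {u}| + x`.  `D` is not empty: if all neighbours of `v` are in `X`, take one, `u`;
`Cm G X H u v ⊆ X.erase u` has fewer than `m` elements.  `dense_core`, `link4_knit` and
`exists_rigid` give a contradiction with `hK` or with `step1A`. -/
theorem massed_knitall_aux (x m n : ℕ) (hx1 : 1 ≤ x) (hm : 23 * x ≤ m) :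
    ∀ (e : ℕ) (G : SimpleGraph V) (X H : Finset V), H.card ≤ n →
      (pairs G (X ∪ H)).card ≤ e → X.card ≤ x → Massed m G X H → KnitAll G (X ∪ H) X := by
  induction n with
  | zero =>
    intro e G X H hn _ _ hM
    have hH : H = ∅ := Finset.card_eq_zero.1 (Nat.le_zero.1 hn)
    subst hH
    have h1 := hM.m1
    have : P G (X ∪ ∅) ∅ = ∅ := by
      ext q
      simp [mem_P]
    rw [this] at h1
    simp at h1
  | succ n ihn =>
    intro e
    induction e with
    | zero =>
      intro G X H _ he _ hM
      have h1 := hM.m1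
      have h2 : (P G (X ∪ H) H).card ≤ (pairs G (X ∪ H)).card :=
        Finset.card_le_card (Finset.filter_subset _ _)
      omega
    | succ e ihe =>
      intro G X H hn he hX hM
      by_contra hK
      have ih : IHA V x m H.card := fun G' X' H' hlt hX' hM' ↦
        ihn _ G' X' H' (by omega) le_rfl hX' hM'
      have ih2 : ∀ G' : SimpleGraph V, (pairs G' (X ∪ H)).card < (pairs G (X ∪ H)).card →
          Massed m G' X H → KnitAll G' (X ∪ H) X := fun G' hlt hM' ↦
        ihe G' X H hn (by omega) hX hM'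
      obtain ⟨v, hv, hdeg⟩ := lowdeg hM (del_boundA ih hX ih2 hM hK)
      have hvX : v ∉ X := fun h ↦ Finset.disjoint_left.1 hM.disj h hv
      have hN : ∀ y, y ∈ nb G (X ∪ H) {v} ↔ y ∈ X ∪ H ∧ G.Adj v y := by
        intro y
        rw [mem_nb]
        simp only [Finset.mem_singleton, exists_eq_left]
        exact ⟨fun h ↦ ⟨h.1, h.2.2⟩, fun h ↦ ⟨h.1, h.2.ne', h.2⟩⟩
      have hNne : (nb G (X ∪ H) {v}).Nonempty := by
        rw [Finset.nonempty_iff_ne_empty]
        intro h
        exact hK (isolated ih hX hM hv h)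
      have hDne : (nb G (X ∪ H) {v} \ X).Nonempty := by
        rw [Finset.nonempty_iff_ne_empty]
        intro h
        rw [Finset.sdiff_eq_empty_iff_subset] at h
        obtain ⟨u, hu⟩ := hNne
        obtain ⟨hu1, hu2⟩ := (hN u).1 hu
        have h1 := commonA ih hX hM hK hu1 hv hu2.symm
        have h2 : Cm G X H u v ⊆ X.erase u := by
          intro y hy
          obtain ⟨y1, y2, y3, -⟩ := mem_Cm.1 hy
          exact Finset.mem_erase.2 ⟨y3, h ((hN y).2 ⟨y1, y2⟩)⟩
        have h3 := Finset.card_le_card h2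
        have h4 := Finset.card_erase_lt_of_mem (h hu)
        omega
      obtain ⟨K, hK1, hK2, hK3, hK4⟩ := dense_core (G := G) (D := nb G (X ∪ H) {v} \ X) hx1 hm hDne
        ((Finset.card_le_card Finset.sdiff_subset).trans hdeg) (by
          intro u hu
          obtain ⟨hu1, hu2⟩ := Finset.mem_sdiff.1 hu
          obtain ⟨hu3, hu4⟩ := (hN u).1 hu1
          have h1 := commonA ih hX hM hK hu3 hv hu4.symm
          have h2 : Cm G X H u v ⊆ nb G (nb G (X ∪ H) {v} \ X) {u} ∪ X := by
            intro y hy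
            obtain ⟨y1, y2, y3, y4⟩ := mem_Cm.1 hy
            by_cases hyX : y ∈ X
            · exact Finset.mem_union_right _ hyX
            · refine Finset.mem_union_left _ (mem_nb.2 ⟨Finset.mem_sdiff.2
                ⟨(hN y).2 ⟨y1, y2⟩, hyX⟩, fun h ↦ y3 (Finset.mem_singleton.1 h), u,
                Finset.mem_singleton_self u, ?_⟩)
              rcases y4 with h | h
              · exact h
              · exact absurd h.1 hu2
          have h3 := (Finset.card_le_card h2).trans (Finset.card_union_le _ _)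
          omega)
      have hKS : K ⊆ X ∪ H := fun y hy ↦
        ((hN y).1 (Finset.mem_sdiff.1 (hK1 hy)).1).1
      rcases exists_rigid (G := G) (S := X ∪ H) (X := X) (K := K) (x := x)
        Finset.subset_union_left hKS hK2 hX hK4 (fun Z hZ hZx ↦ link4_knit hK3 hZ hZx) with
        h | ⟨W, hW1, hW2, hW3, hW4⟩
      · exact hK h
      · refine step1A ih hX hM hK W (fun y hy ↦ ?_) hW2 hW3 hW4
        obtain ⟨y1, y2⟩ := Finset.mem_sdiff.1 (hW1 hy)
        rcases Finset.mem_union.1 y1 with h | h
        · exact absurd h y2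
        · exact h

/-- **Massed pairs are knit for all partitions of the roots.** -/
theorem massed_knitall (hx1 : 1 ≤ x) (hm : 23 * x ≤ m) (hx : X.card ≤ x)
    (hM : Massed m G X H) : KnitAll G (X ∪ H) X :=
  massed_knitall_aux x m H.card hx1 hm _ G X H le_rfl le_rfl hx hM

end H61M
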