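import Pool.Agent.Lib.H61M.Base

/-! # Chunk A2 of board h61m: lifting along a contraction. -/

open Classical H47G

namespace H61M

variable {V : Type} {G : SimpleGraph V}

/-- Copy of `H47G.knit_lift` (file `H47G/Massed.lean`). -/
theorem knitall_lift {u v : V} (huv : G.Adj u v) {T Z : Finset V} (hv : v ∉ T)
    (h : KnitAll (con G u v) T Z) : KnitAll G (insert v T) Z := by
  intro φ
  obtain ⟨F, h1, h2, h3, h4⟩ := h φ
  have vF : ∀ l, v ∉ F l := fun l h ↦ hv (h1 l h)
  exact ⟨fun l ↦ lift u v (F l),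
    fun l ↦ lift_subset ((h1 l).trans (Finset.subset_insert _ _)) (Finset.mem_insert_self _ _),
    fun l ↦ (h2 l).lift huv (vF l),
    fun l l' hl ↦ lift_disjoint (h3 l l' hl) (vF l) (vF l'),
    fun z hz ↦ subset_lift (h4 z hz)⟩

end H61M
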