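import Pool.Agent.Lib.H61M.Base

/-! # Chunk A3 of board h61m: transfer to a rigid core. -/

open Classical H47G

namespace H61M

variable {V : Type} {G : SimpleGraph V}

/-- Version of `H47G.transfer` (file `H47G/Massed.lean`): `|X|` disjoint paths from `X` to
`nb G (X ∪ H) C` in `S \ C` (Menger), truncated at the first vertex `b i` of `nb G (X ∪ H) C`;
apply `hcore` to the labelling which gives `b i` the label of `x i` (an injective assignment:
label of `y` is `φ (x i)` if `y = b i`, and for the other vertices a new label, for example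
`1 + sup` of the labels used; the sets of the other labels are then dropped, i.e. put
`F' l = F l ∪ ⋃ {Q i : φ (x i) = l}` only for labels `l` with some `φ (x i) = l`, and `∅`
otherwise). -/
theorem transferA {X H C : Finset V} (hd : Disjoint X H) (hC : C ⊆ H)
    (hmin : ∀ W ⊆ H, C ⊆ W → X.card ≤ (nb G (X ∪ H) W).card)
    (hcore : KnitAll G (C ∪ nb G (X ∪ H) C) (nb G (X ∪ H) C)) : KnitAll G (X ∪ H) X := by
  set S := X ∪ H with hS
  set B := nb G S C with hB
  have hXC : X ⊆ S \ C := by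
    intro x hx
    exact Finset.mem_sdiff.2 ⟨Finset.mem_union_left _ hx,
      fun h ↦ Finset.disjoint_left.1 hd hx (hC h)⟩
  have hBC : B ⊆ S \ C := by
    intro x hx
    obtain ⟨h1, h2, -⟩ := mem_nb.1 hx
    exact Finset.mem_sdiff.2 ⟨h1, h2⟩
  have hCS : C ⊆ S := hC.trans Finset.subset_union_right
  obtain ⟨f, f1, f2, f3, f4, f5⟩ := menger (G := G) (k := X.card) hXC hBC (by
    intro Z U hs
    refine (hmin (S \ (Z ∪ U)) ?_ ?_).trans (Finset.card_le_card ?_)
    · intro w hw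
      obtain ⟨h1, h2⟩ := Finset.mem_sdiff.1 hw
      rcases Finset.mem_union.1 h1 with h | h
      · exfalso
        apply h2
        by_cases hZ : w ∈ Z
        · exact Finset.mem_union_left _ hZ
        · exact Finset.mem_union_right _ (hs.au (Finset.mem_sdiff.2 ⟨h, hZ⟩))
      · exact h
    · intro c hc
      refine Finset.mem_sdiff.2 ⟨hCS hc, fun h ↦ ?_⟩
      rcases Finset.mem_union.1 h with h | h
      · exact (Finset.mem_sdiff.1 (hs.zs h)).2 hc
      · exact (Finset.mem_sdiff.1 (Finset.mem_sdiff.1 (hs.us h)).1).2 hc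
    · intro y hy
      obtain ⟨h1, h2, w, hw, hwy⟩ := mem_nb.1 hy
      by_contra hyZ
      have hyU : y ∈ U := by
        by_contra hyU
        exact h2 (Finset.mem_sdiff.2 ⟨h1, by simp [hyZ, hyU]⟩)
      obtain ⟨hw1, hw2⟩ := Finset.mem_sdiff.1 hw
      simp only [Finset.mem_union, not_or] at hw2
      have hyC : y ∉ C := (Finset.mem_sdiff.1 (Finset.mem_sdiff.1 (hs.us hyU)).1).2
      by_cases hwC : w ∈ C
      · exact Finset.disjoint_left.1 hs.ub hyU (mem_nb.2 ⟨h1, hyC, w, hwC, hwy⟩)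
      · exact hs.cl y hyU w (Finset.mem_sdiff.2 ⟨hw1, hwC⟩) hw2.1 hw2.2 hwy.symm)
  obtain ⟨x, x1, x2⟩ := hits rfl f f3 f5
  have xf : ∀ i, x i ∈ f i ∧ x i ∈ X := fun i ↦ Finset.mem_inter.1 (by simp [x1 i])
  choose Q q1 q2 q3 b q4 using fun i ↦ first_hit (f2 i) (xf i).1 (f4 i)
  have hb : ∀ i, b i ∈ Q i ∧ b i ∈ B := fun i ↦ Finset.mem_inter.1 (by simp [q4 i])
  have Qd : ∀ i j, i ≠ j → Disjoint (Q i) (Q j) := fun i j hij ↦ (f5 i j hij).mono (q1 i) (q1 j)
  have binj : Function.Injective b := by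
    intro i j hij
    by_contra hne
    exact Finset.disjoint_left.1 (Qd i j hne) (hb i).1 (hij ▸ (hb j).1)
  have hCB : C ∪ B ⊆ S := Finset.union_subset hCS nb_subset
  have QS : ∀ i, Q i ⊆ S := fun i ↦ (q1 i).trans ((f1 i).trans Finset.sdiff_subset)
  -- a set `Q j` meets `C ∪ B` only in `b j`
  have Qhit : ∀ j, ∀ t ∈ Q j, t ∈ C ∪ B → t = b j := by
    intro j t ht ht'
    have htC : t ∉ C := (Finset.mem_sdiff.1 (f1 j (q1 j ht))).2
    have htB : t ∈ B := by
      rcases Finset.mem_union.1 ht' with h | h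
      · exact absurd h htC
      · exact h
    have h1 : t ∈ Q j ∩ B := Finset.mem_inter.2 ⟨ht, htB⟩
    rwa [q4 j, Finset.mem_singleton] at h1
  intro φ
  obtain ⟨F, F1, F2, F3, F4⟩ := hcore fun y ↦ if h : ∃ i, b i = y then φ (x h.choose) else 0
  have hbF : ∀ i, b i ∈ F (φ (x i)) := by
    intro i
    have h1 := F4 (b i) (hb i).2
    have h2 : ∃ j, b j = b i := ⟨i, rfl⟩
    rw [dif_pos h2, binj h2.choose_spec] at h1
    exact h1
  set I : ℕ → Finset (Fin X.card) := fun l ↦ Finset.univ.filter fun i ↦ φ (x i) = l with hI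
  have mI : ∀ l i, i ∈ I l ↔ φ (x i) = l := fun l i ↦ by simp [hI]
  refine ⟨fun l ↦ F l ∪ (I l).biUnion Q, ?_, ?_, ?_, ?_⟩
  · exact fun l ↦ Finset.union_subset ((F1 l).trans hCB) (Finset.biUnion_subset.2 fun i _ ↦ QS i)
  · intro l
    refine (F2 l).biUnion (I l) Q (fun i _ ↦ q3 i) fun i hi ↦ ?_
    have h1 := hbF i
    rw [(mI l i).1 hi] at h1
    exact ⟨b i, Finset.mem_inter.2 ⟨(hb i).1, h1⟩⟩
  · intro l l' hl
    rw [Finset.disjoint_left]
    intro t ht ht'
    rcases Finset.mem_union.1 ht with h | h <;> rcases Finset.mem_union.1 ht' with h' | h'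
    · exact Finset.disjoint_left.1 (F3 l l' hl) h h'
    · obtain ⟨j, hj, hj'⟩ := Finset.mem_biUnion.1 h'
      have h1 := Qhit j t hj' (F1 l h)
      have h2 := hbF j
      rw [(mI l' j).1 hj, ← h1] at h2
      exact Finset.disjoint_left.1 (F3 l l' hl) h h2
    · obtain ⟨j, hj, hj'⟩ := Finset.mem_biUnion.1 h
      have h1 := Qhit j t hj' (F1 l' h')
      have h2 := hbF j
      rw [(mI l j).1 hj, ← h1] at h2
      exact Finset.disjoint_left.1 (F3 l l' hl) h2 h'
    · obtain ⟨i, hi, hi'⟩ := Finset.mem_biUnion.1 h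
      obtain ⟨j, hj, hj'⟩ := Finset.mem_biUnion.1 h'
      refine Finset.disjoint_left.1 (Qd i j ?_) hi' hj'
      rintro rfl
      exact hl (((mI l i).1 hi).symm.trans ((mI l' i).1 hj))
  · intro z hz
    obtain ⟨i, rfl⟩ := x2 z hz
    exact Finset.mem_union_right _ (Finset.mem_biUnion.2 ⟨i, (mI _ i).2 rfl, q2 i⟩)

end H61M
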