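import Pool.Agent.Lib.H61M.A1

/-! # Chunk A4 of board h61m: no rigid set with fewer than `|X|` neighbours. -/

open Classical H47G

namespace H61M

variable {V : Type} {G : SimpleGraph V} {x m : ℕ} {X H : Finset V}

/-- Copy of `H47G.step1` (file `H47G/Main.lean`), with `knitall_replace` for `knit_replace`. -/
theorem step1A (ih : IHA V x m H.card) (hx : X.card ≤ x) (hM : Massed m G X H)
    (hK : ¬ KnitAll G (X ∪ H) X) :
    ∀ W ⊆ H, W.Nonempty → (nb G (X ∪ H) W).card < X.card →
      ¬ KnitAll G (W ∪ nb G (X ∪ H) W) (nb G (X ∪ H) W) := by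
  set S := X ∪ H with hS
  intro W₀ hW₀ hne₀ hlt₀ hr₀
  let T := H.powerset.filter fun W ↦ W.Nonempty ∧ (nb G S W).card < X.card ∧
    KnitAll G (W ∪ nb G S W) (nb G S W)
  have hT : T.Nonempty := ⟨W₀, by
    simp only [T, Finset.mem_filter, Finset.mem_powerset]
    exact ⟨hW₀, hne₀, hlt₀, hr₀⟩⟩
  obtain ⟨W, hW', hmax⟩ := T.exists_max_image Finset.card hT
  obtain ⟨hW, hne, hlt, hr⟩ := by
    simpa only [T, Finset.mem_filter, Finset.mem_powerset] using hW'
  set N := nb G S W with hN
  have hS' : X ∪ (H \ W) = S \ W := union_sdiff_eq hM.disj hW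
  have hWH : (H \ W).card + W.card = H.card := Finset.card_sdiff_add_card_eq_card hW
  have hWpos : 0 < W.card := Finset.card_pos.2 hne
  have hNT : N ⊆ X ∪ (H \ W) := by
    intro y hy
    rw [hS']
    obtain ⟨h1, h2, -⟩ := mem_nb.1 hy
    exact Finset.mem_sdiff.2 ⟨h1, h2⟩
  have hWS' : Disjoint W (X ∪ (H \ W)) := by
    rw [hS']
    exact Finset.disjoint_sdiff
  by_cases hc : ∀ W' ⊆ H \ W, (nb (cliq G N) (X ∪ (H \ W)) W').card < X.card →
      (P (cliq G N) (X ∪ (H \ W)) W').card ≤ 2 * m * W'.card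
  · have hM' : Massed m (cliq G N) X (H \ W) := by
      refine ⟨hM.disj.mono_right Finset.sdiff_subset, hM.card, ?_, hc⟩
      have h1 : (P G S H).card ≤ (P G S W).card + (P (cliq G N) (X ∪ (H \ W)) (H \ W)).card := by
        refine (Finset.card_le_card ?_).trans (Finset.card_union_le _ _)
        rintro ⟨a, b⟩ hab
        obtain ⟨h1, h2, h3, h4⟩ := mem_P.1 hab
        simp only at h1 h2 h3 h4
        by_cases haW : a ∈ W
        · exact Finset.mem_union_left _ (mem_P.2 ⟨h1, h2, h3, Or.inl haW⟩)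
        by_cases hbW : b ∈ W
        · exact Finset.mem_union_left _ (mem_P.2 ⟨h1, h2, h3, Or.inr hbW⟩)
        refine Finset.mem_union_right _ (mem_P.2 ⟨?_, ?_, ⟨h3.ne, Or.inl h3⟩, ?_⟩)
        · rw [hS']
          exact Finset.mem_sdiff.2 ⟨h1, haW⟩
        · rw [hS']
          exact Finset.mem_sdiff.2 ⟨h2, hbW⟩
        · rcases h4 with h4 | h4
          · exact Or.inl (Finset.mem_sdiff.2 ⟨h4, haW⟩)
          · exact Or.inr (Finset.mem_sdiff.2 ⟨h4, hbW⟩)
      have h2 := hM.m1
      have h3 := hM.m2 W hW hlt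
      have h4 : 2 * m * H.card = 2 * m * (H \ W).card + 2 * m * W.card := by
        rw [← hWH, mul_add]
      rw [← hS] at h2 h3
      omega
    have h1 := ih (cliq G N) X (H \ W) (by omega) hx hM'
    have h2 := knitall_replace hr hNT hWS' h1
    rw [Finset.union_assoc, Finset.sdiff_union_of_subset hW] at h2
    exact hK h2
  · push Not at hc
    obtain ⟨W', hW'H, hlt', hbig, hM'⟩ := massed_of_violation hM.card hc
    set N' := nb (cliq G N) (X ∪ (H \ W)) W' with hN'
    have hcard' : W'.card ≤ (H \ W).card := Finset.card_le_card hW'H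
    have hk := ih _ _ _ (by omega) (by omega) hM'
    have hW'W : ∀ x ∈ W', x ∉ W := fun x hx ↦ (Finset.mem_sdiff.1 (hW'H hx)).2
    have hW'S : W' ⊆ H := hW'H.trans Finset.sdiff_subset
    by_cases hd : Disjoint W' N
    · have hA : nb G S W' ⊆ N' := by
        intro y hy
        obtain ⟨h1, h2, w, hw, hwy⟩ := mem_nb.1 hy
        have hyW : y ∉ W := by
          intro hyW
          refine Finset.disjoint_left.1 hd hw (mem_nb.2 ⟨?_, hW'W w hw, y, hyW, hwy.symm⟩)
          exact Finset.mem_union_right _ (hW'S hw)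
        refine mem_nb.2 ⟨?_, h2, w, hw, hwy.ne, Or.inl hwy⟩
        rw [hS']
        exact Finset.mem_sdiff.2 ⟨h1, hyW⟩
      have hB : P (cliq G N) (X ∪ (H \ W)) W' ⊆ P G S W' := by
        rintro ⟨a, b⟩ hab
        obtain ⟨h1, h2, h3, h4⟩ := mem_P.1 hab
        simp only at h1 h2 h3 h4
        rw [hS'] at h1 h2
        refine mem_P.2 ⟨(Finset.mem_sdiff.1 h1).1, (Finset.mem_sdiff.1 h2).1, ?_, h4⟩
        rcases h3.2 with h5 | ⟨h5, h6⟩
        · exact h5
        · rcases h4 with h4 | h4
          · exact absurd h5 (Finset.disjoint_left.1 hd h4)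
          · exact absurd h6 (Finset.disjoint_left.1 hd h4)
      have h1 := hM.m2 W' hW'S ((Finset.card_le_card hA).trans_lt hlt')
      have h2 := Finset.card_le_card hB
      rw [← hS] at h1
      omega
    · obtain ⟨z, hz, hzN⟩ := Finset.not_disjoint_iff.1 hd
      have hnb : nb G S (W ∪ W') = N' := by
        ext y
        simp only [hN', mem_nb, hS', Finset.mem_sdiff, Finset.mem_union, not_or]
        constructor
        · rintro ⟨h1, ⟨h2, h3⟩, w, hw, hwy⟩
          refine ⟨⟨h1, h2⟩, h3, ?_⟩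
          rcases hw with hw | hw
          · exact ⟨z, hz, fun e ↦ h3 (e ▸ hz), Or.inr ⟨hzN, mem_nb.2 ⟨h1, h2, w, hw, hwy⟩⟩⟩
          · exact ⟨w, hw, hwy.ne, Or.inl hwy⟩
        · rintro ⟨⟨h1, h2⟩, h3, w, hw, hwy⟩
          refine ⟨h1, ⟨h2, h3⟩, ?_⟩
          rcases hwy.2 with h | h
          · exact ⟨w, Or.inr hw, h⟩
          · obtain ⟨-, -, w', hw', hw'y⟩ := mem_nb.1 h.2
            exact ⟨w', Or.inl hw', hw'y⟩
      have hNT' : N ⊆ N' ∪ W' := by
        intro y hy
        by_cases hyW' : y ∈ W'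
        · exact Finset.mem_union_right _ hyW'
        · exact Finset.mem_union_left _ (mem_nb.2 ⟨hNT hy, hyW', z, hz,
            fun e ↦ hyW' (e ▸ hz), Or.inr ⟨hzN, hy⟩⟩)
      have hWT : Disjoint W (N' ∪ W') := by
        rw [Finset.disjoint_union_right]
        refine ⟨?_, Finset.disjoint_left.2 fun x hx hx' ↦ hW'W x hx' hx⟩
        exact hWS'.mono_right nb_subset
      have h1 := knitall_replace hr hNT' hWT hk
      have h2 : N' ∪ W' ∪ W = (W ∪ W') ∪ N' := by
        ext x
        simp only [Finset.mem_union]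
        tauto
      rw [h2] at h1
      have hmem : W ∪ W' ∈ T := by
        simp only [T, Finset.mem_filter, Finset.mem_powerset]
        refine ⟨Finset.union_subset hW hW'S, hne.mono Finset.subset_union_left, ?_, ?_⟩
        · rw [hnb]
          exact hlt'
        · rw [hnb]
          exact h1
      have h3 := hmax _ hmem
      have h4 : (W ∪ W').card = W.card + W'.card :=
        Finset.card_union_of_disjoint (Finset.disjoint_left.2 fun x hx hx' ↦ hW'W x hx' hx)
      have h5 : 0 < W'.card := Finset.card_pos.2 ⟨z, hz⟩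
      omega

end H61M
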