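import Pool.Agent.Lib.H61M.A3
import Pool.Agent.Lib.H61M.A4

/-! # Chunk A5 of board h61m: no rigid and no dense set. -/

open Classical H47G

namespace H61M

variable {V : Type} {G : SimpleGraph V} {x m : ℕ} {X H : Finset V}

/-- Copy of `H47G.noRigid` (file `H47G/Main.lean`), with `transferA` and `step1A`. -/
theorem noRigidA (ih : IHA V x m H.card) (hx : X.card ≤ x) (hM : Massed m G X H)
    (hK : ¬ KnitAll G (X ∪ H) X) :
    ∀ W ⊆ H, W.Nonempty → (nb G (X ∪ H) W).card ≤ X.card →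
      ¬ KnitAll G (W ∪ nb G (X ∪ H) W) (nb G (X ∪ H) W) := by
  set S := X ∪ H with hS
  intro W hW hne _ hr
  let T := H.powerset.filter fun W' ↦ W ⊆ W'
  have hT : T.Nonempty := ⟨W, by simp [T, hW]⟩
  obtain ⟨W₂, hW₂', hmin⟩ := T.exists_min_image (fun W' ↦ (nb G S W').card) hT
  obtain ⟨hW₂, hWW₂⟩ := by simpa only [T, Finset.mem_filter, Finset.mem_powerset] using hW₂'
  have hmin' : ∀ W₃ ⊆ H, W ⊆ W₃ → (nb G S W₂).card ≤ (nb G S W₃).card := fun W₃ h1 h2 ↦
    hmin W₃ (by simp only [T, Finset.mem_filter, Finset.mem_powerset]; exact ⟨h1, h2⟩)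
  have hW₂S : W₂ ⊆ S := hW₂.trans Finset.subset_union_right
  have r2 : KnitAll G (nb G S W₂ ∪ W₂) (nb G S W₂) := by
    refine transferA nb_disjoint hWW₂ (fun W₃ h1 h2 ↦ ?_) ?_
    · rw [nb_restrict hW₂S h1]
      exact hmin' W₃ (h1.trans hW₂) h2
    · rw [nb_restrict hW₂S hWW₂]
      exact hr
  rw [Finset.union_comm] at r2
  by_cases hlt : (nb G S W₂).card < X.card
  · exact step1A ih hx hM hK W₂ hW₂ (hne.mono hWW₂) hlt r2
  · refine hK (transferA hM.disj hW (fun W₃ h1 h2 ↦ ?_) hr)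
    have := hmin' W₃ h1 h2
    rw [← hS]
    omega

/-- Copy of `H47G.noDense` (file `H47G/Main.lean`). -/
theorem noDenseA (ih : IHA V x m H.card) (hx : X.card ≤ x) (hM : Massed m G X H)
    (hK : ¬ KnitAll G (X ∪ H) X) :
    ∀ W ⊆ H, W ≠ H → (nb G (X ∪ H) W).card ≤ X.card →
      (P G (X ∪ H) W).card ≤ 2 * m * W.card := by
  intro W hW hne hle
  rcases hle.lt_or_eq with h | h
  · exact hM.m2 W hW h
  by_contra hc
  push Not at hc
  have hWS : W ⊆ X ∪ H := hW.trans Finset.subset_union_right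
  have hcard : W.card < H.card :=
    Finset.card_lt_card (Finset.ssubset_iff_subset_ne.2 ⟨hW, hne⟩)
  have hM' : Massed m G (nb G (X ∪ H) W) W := by
    refine ⟨nb_disjoint, hle.trans hM.card, ?_, fun W' hW' hlt ↦ ?_⟩
    · rw [P_restrict hWS (Finset.Subset.refl _)]
      exact hc
    · rw [nb_restrict hWS hW', h] at hlt
      rw [P_restrict hWS hW']
      exact hM.m2 W' (hW'.trans hW) hlt
  have hk := ih _ _ _ hcard (hle.trans hx) hM'
  rw [Finset.union_comm] at hk
  refine noRigidA ih hx hM hK W hW ?_ hle hk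
  rw [Finset.nonempty_iff_ne_empty]
  rintro rfl
  have : P G (X ∪ H) ∅ = ∅ := by
    ext q
    simp [mem_P]
  simp [this] at hc

end H61M
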