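import Pool.Agent.Lib.H61M.A2
import Pool.Agent.Lib.H61M.A5

/-! # Chunk A6 of board h61m: many common neighbours. -/

open Classical H47G

namespace H61M

variable {V : Type} {G : SimpleGraph V} {x m : ℕ} {X H : Finset V}

/-- Copy of `H47G.common` (file `H47G/Main.lean`), with `knitall_lift`, `step1A`, `noDenseA`. -/
theorem commonA (ih : IHA V x m H.card) (hx : X.card ≤ x) (hM : Massed m G X H)
    (hK : ¬ KnitAll G (X ∪ H) X) {u v : V} (hu : u ∈ X ∪ H) (hv : v ∈ H) (huv : G.Adj u v) :
    m ≤ (Cm G X H u v).card := by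
  by_contra hlt
  push Not at hlt
  have hvX : v ∉ X := fun h ↦ Finset.disjoint_left.1 hM.disj h hv
  have hS1 : X ∪ H.erase v = (X ∪ H).erase v := by
    ext x
    simp only [Finset.mem_union, Finset.mem_erase]
    constructor
    · rintro (h | h)
      · exact ⟨fun e ↦ hvX (e ▸ h), Or.inl h⟩
      · exact ⟨h.1, Or.inr h.2⟩
    · rintro ⟨h1, h2 | h2⟩
      · exact Or.inl h2
      · exact Or.inr ⟨h1, h2⟩
  have hvS : v ∈ X ∪ H := Finset.mem_union_right _ hv
  have hHc : (H.erase v).card + 1 = H.card := Finset.card_erase_add_one hv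
  by_cases hc : ∀ W' ⊆ H.erase v, (nb (con G u v) (X ∪ H.erase v) W').card < X.card →
      (P (con G u v) (X ∪ H.erase v) W').card ≤ 2 * m * W'.card
  · have hM' : Massed m (con G u v) X (H.erase v) := by
      refine ⟨hM.disj.mono_right (Finset.erase_subset _ _), hM.card, ?_, hc⟩
      have h1 := count (G := G) hu hv huv
      have h2 := hM.m1
      have h3 : 2 * m * H.card = 2 * m * (H.erase v).card + 2 * m := by
        rw [← hHc, mul_add, mul_one]
      rw [hS1]
      omega
    have h1 := ih _ _ _ (by omega) hx hM'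
    have h2 := knitall_lift huv (by rw [hS1]; exact Finset.notMem_erase _ _) h1
    rw [hS1, Finset.insert_erase hvS] at h2
    exact hK h2
  · push Not at hc
    obtain ⟨W', hW'H, hlt', hbig, hM'⟩ := massed_of_violation hM.card hc
    have hW'S : W' ⊆ H := hW'H.trans (Finset.erase_subset _ _)
    have hvW' : v ∉ W' := fun h ↦ Finset.notMem_erase v H (hW'H h)
    have hcard' : W'.card ≤ (H.erase v).card := Finset.card_le_card hW'H
    by_cases huW : u ∈ W'
    · have hk := ih _ _ _ (by omega) (by omega) hM'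
      rw [hS1] at hlt' hbig hM' hk
      have hk' := knitall_lift huv (by
        rw [Finset.mem_union, not_or]
        exact ⟨fun h ↦ Finset.notMem_erase v (X ∪ H) (nb_subset h), hvW'⟩) hk
      have hnb : nb G (X ∪ H) (insert v W') = nb (con G u v) ((X ∪ H).erase v) W' := by
        ext y
        simp only [mem_nb, Finset.mem_erase, Finset.mem_insert, not_or]
        constructor
        · rintro ⟨h1, ⟨h2, h3⟩, w, hw, hwy⟩
          refine ⟨⟨h2, h1⟩, h3, ?_⟩
          rcases hw with rfl | hw
          · exact ⟨u, huW, fun e ↦ h3 (e ▸ huW), Or.inr (Or.inl ⟨rfl, hwy⟩)⟩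
          · exact ⟨w, hw, le_con hwy⟩
        · rintro ⟨⟨h2, h1⟩, h3, w, hw, hwy⟩
          refine ⟨h1, ⟨h2, h3⟩, ?_⟩
          rcases hwy.2 with h | h | h
          · exact ⟨w, Or.inr hw, h⟩
          · exact ⟨v, Or.inl rfl, h.2⟩
          · exact absurd (h.1 ▸ huW) h3
      have hW'' : insert v W' ⊆ H := Finset.insert_subset hv hW'S
      refine step1A ih hx hM hK (insert v W') hW'' ⟨v, Finset.mem_insert_self _ _⟩ ?_ ?_
      · rw [hnb]
        exact hlt'
      · rw [hnb, Finset.union_comm, Finset.union_insert]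
        exact hk'
    · rw [hS1] at hlt' hbig hM'
      have h1 : nb G (X ∪ H) W' ⊆ insert v (nb (con G u v) ((X ∪ H).erase v) W') := by
        intro y hy
        obtain ⟨h1, h2, w, hw, hwy⟩ := mem_nb.1 hy
        by_cases hyv : y = v
        · exact Finset.mem_insert.2 (Or.inl hyv)
        · exact Finset.mem_insert_of_mem (mem_nb.2 ⟨Finset.mem_erase.2 ⟨hyv, h1⟩, h2, w, hw,
            le_con hwy⟩)
      have h2 := (Finset.card_le_card h1).trans (Finset.card_insert_le _ _)
      have h3 := P_con_le (G := G) (W := W') hvS huW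
      have h4 := noDenseA ih hx hM hK W' hW'S (fun e ↦ hvW' (e ▸ hv)) (by omega)
      omega

end H61M
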