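import Pool.Agent.Lib.H61M.Base

/-! # Chunk A8 of board h61m: short connections knit. -/

open Classical H47G

namespace H61M

variable {V : Type} {G : SimpleGraph V}

/-- Induction on `Z' ⊆ Z`: there are disjoint connected `F l ⊆ K` with `z ∈ F (φ z)` for
`z ∈ Z'`, `F l = ∅` if no `z ∈ Z'` has label `l`, and a set `E` (the union of all `F l`) with
`⋃ F l ⊆ E`, `E ∩ Z ⊆ Z'`, `|E| ≤ 5 |Z'|`.  Step: if the label of the new `z` is new, put
`F (φ z) = {z}`; otherwise join `z` to a `z' ∈ Z'` of the same label by `Link4` with
`B = E ∪ Z` (at most `5 (|Z| - 1) + ...`; count `|E ∪ Z| ≤ |Z| + 4 |Z'|`, so keep track of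
`|E \ Z| ≤ 4 |Z'|`), and add `{z} ∪ Q` to `F (φ z)`. -/
theorem link4_knit {K : Finset V} {x : ℕ} (hK : Link4 G K x) {Z : Finset V} (hZ : Z ⊆ K)
    (hx : Z.card ≤ x) : KnitAll G K Z := by
  intro φ
  have key : ∀ Z' : Finset V, Z' ⊆ Z → ∃ (F : ℕ → Finset V) (E : Finset V), (∀ l, F l ⊆ K) ∧
      (∀ l, Conn G (F l)) ∧ (∀ l l', l ≠ l' → Disjoint (F l) (F l')) ∧
      (∀ z ∈ Z', z ∈ F (φ z)) ∧ (∀ l, ∀ y ∈ F l, y ∈ E) ∧ (∀ l, ∀ y ∈ F l, y ∈ Z → y ∈ Z') ∧
      (∀ l, ∀ y ∈ F l, ∃ z ∈ Z', φ z = l) ∧ (E \ Z).card ≤ 4 * Z'.card := by
    intro Z'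
    induction Z' using Finset.induction_on with
    | empty =>
      intro _
      exact ⟨fun _ ↦ ∅, ∅, by simp, fun _ ↦ conn_empty, by simp, by simp, by simp, by simp,
        by simp, by simp⟩
    | insert z Z' hz ih =>
      intro hsub
      obtain ⟨F, E, h1, h2, h3, h4, h5, h6, h7, h8⟩ := ih ((Finset.subset_insert _ _).trans hsub)
      have hzZ : z ∈ Z := hsub (Finset.mem_insert_self _ _)
      have hzF : ∀ l, z ∉ F l := fun l hl ↦ hz (h6 l z hl hzZ)
      have hcard := Finset.card_insert_of_notMem hz
      have hcZ := Finset.card_le_card hsub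
      have step : ∃ R Q : Finset V, z ∈ R ∧ R ⊆ K ∧ Conn G (F (φ z) ∪ R) ∧
          (∀ y ∈ R, y = z ∨ y ∈ F (φ z) ∨ y ∈ Q) ∧ Disjoint Q (E ∪ Z) ∧ Q.card ≤ 4 := by
        by_cases hex : ∃ z' ∈ Z', φ z' = φ z
        · obtain ⟨z', hz', he⟩ := hex
          have hz'Z : z' ∈ Z := hsub (Finset.mem_insert_of_mem hz')
          have hB : (E ∪ Z).card ≤ 5 * x := by
            have e1 : (E ∪ Z).card ≤ (E \ Z).card + Z.card := by
              rw [← Finset.sdiff_union_self_eq_union]
              exact Finset.card_union_le _ _
            omega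
          obtain ⟨Q, q1, q2, q3, q4⟩ := hK z (hZ hzZ) z' (hZ hz'Z) (E ∪ Z) hB
          refine ⟨insert z (insert z' Q), Q, Finset.mem_insert_self _ _, ?_, ?_, ?_, q3, q2⟩
          · exact Finset.insert_subset (hZ hzZ) (Finset.insert_subset (hZ hz'Z) q1)
          · refine (h2 (φ z)).union q4 ⟨z', Finset.mem_inter.2 ⟨?_, ?_⟩⟩
            · rw [← he]
              exact h4 z' hz'
            · exact Finset.mem_insert_of_mem (Finset.mem_insert_self _ _)
          · intro y hy
            rcases Finset.mem_insert.1 hy with h | h
            · exact Or.inl h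
            · rcases Finset.mem_insert.1 h with h | h
              · refine Or.inr (Or.inl ?_)
                rw [h, ← he]
                exact h4 z' hz'
              · exact Or.inr (Or.inr h)
        · have hemp : F (φ z) = ∅ := by
            rw [Finset.eq_empty_iff_forall_notMem]
            intro y hy
            exact hex (h7 (φ z) y hy)
          refine ⟨{z}, ∅, Finset.mem_singleton_self _, ?_, ?_, ?_, Finset.disjoint_empty_left _,
            by simp⟩
          · exact Finset.singleton_subset_iff.2 (hZ hzZ)
          · rw [hemp, Finset.empty_union]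
            exact conn_singleton z
          · intro y hy
            exact Or.inl (Finset.mem_singleton.1 hy)
      obtain ⟨R, Q, r1, r2, r3, r4, r5, r6⟩ := step
      have hQE : ∀ y ∈ Q, y ∉ E ∧ y ∉ Z := by
        intro y hy
        have := Finset.disjoint_left.1 r5 hy
        rw [Finset.mem_union, not_or] at this
        exact this
      -- the points of `R` are not in the other sets
      have hRF : ∀ l, l ≠ φ z → Disjoint R (F l) := by
        intro l hl
        rw [Finset.disjoint_left]
        intro y hy hyl
        rcases r4 y hy with h | h | h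
        · rw [h] at hyl
          exact hzF l hyl
        · exact Finset.disjoint_left.1 (h3 (φ z) l hl.symm) h hyl
        · exact (hQE y h).1 (h5 l y hyl)
      set F' : ℕ → Finset V := Function.update F (φ z) (F (φ z) ∪ R) with hF'
      have e1 : F' (φ z) = F (φ z) ∪ R := by rw [hF', Function.update_self]
      have e2 : ∀ l, l ≠ φ z → F' l = F l := fun l hl ↦ by
        rw [hF', Function.update_of_ne hl]
      refine ⟨F', insert z (E ∪ Q), ?_, ?_, ?_, ?_, ?_, ?_, ?_, ?_⟩
      · intro l
        by_cases hl : l = φ z
        · rw [hl, e1]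
          exact Finset.union_subset (h1 _) r2
        · rw [e2 l hl]
          exact h1 l
      · intro l
        by_cases hl : l = φ z
        · rw [hl, e1]
          exact r3
        · rw [e2 l hl]
          exact h2 l
      · intro l l' hll'
        by_cases hl : l = φ z
        · have hl' : l' ≠ φ z := fun h ↦ hll' (hl.trans h.symm)
          rw [hl, e1, e2 l' hl', Finset.disjoint_union_left]
          exact ⟨h3 _ _ hl'.symm, hRF l' hl'⟩
        · by_cases hl' : l' = φ z
          · rw [hl', e1, e2 l hl, Finset.disjoint_union_right]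
            exact ⟨h3 _ _ hl, (hRF l hl).symm⟩
          · rw [e2 l hl, e2 l' hl']
            exact h3 l l' hll'
      · intro w hw
        rcases Finset.mem_insert.1 hw with h | h
        · rw [h, e1]
          exact Finset.mem_union_right _ r1
        · by_cases hl : φ w = φ z
          · rw [hl, e1]
            refine Finset.mem_union_left _ ?_
            rw [← hl]
            exact h4 w h
          · rw [e2 _ hl]
            exact h4 w h
      · intro l y hy
        by_cases hl : l = φ z
        · rw [hl, e1] at hy
          rcases Finset.mem_union.1 hy with h | h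
          · exact Finset.mem_insert_of_mem (Finset.mem_union_left _ (h5 _ y h))
          · rcases r4 y h with h | h | h
            · rw [h]
              exact Finset.mem_insert_self _ _
            · exact Finset.mem_insert_of_mem (Finset.mem_union_left _ (h5 _ y h))
            · exact Finset.mem_insert_of_mem (Finset.mem_union_right _ h)
        · rw [e2 l hl] at hy
          exact Finset.mem_insert_of_mem (Finset.mem_union_left _ (h5 _ y hy))
      · intro l y hy hyZ
        by_cases hl : l = φ z
        · rw [hl, e1] at hy
          rcases Finset.mem_union.1 hy with h | h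
          · exact Finset.mem_insert_of_mem (h6 _ y h hyZ)
          · rcases r4 y h with h | h | h
            · rw [h]
              exact Finset.mem_insert_self _ _
            · exact Finset.mem_insert_of_mem (h6 _ y h hyZ)
            · exact absurd hyZ (hQE y h).2
        · rw [e2 l hl] at hy
          exact Finset.mem_insert_of_mem (h6 _ y hy hyZ)
      · intro l y hy
        by_cases hl : l = φ z
        · exact ⟨z, Finset.mem_insert_self _ _, hl.symm⟩
        · rw [e2 l hl] at hy
          obtain ⟨w, hw, hwl⟩ := h7 l y hy
          exact ⟨w, Finset.mem_insert_of_mem hw, hwl⟩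
      · have hsub2 : insert z (E ∪ Q) \ Z ⊆ (E \ Z) ∪ Q := by
          intro y hy
          obtain ⟨hy1, hy2⟩ := Finset.mem_sdiff.1 hy
          rcases Finset.mem_insert.1 hy1 with h | h
          · rw [h] at hy2
            exact absurd hzZ hy2
          · rcases Finset.mem_union.1 h with h | h
            · exact Finset.mem_union_left _ (Finset.mem_sdiff.2 ⟨h, hy2⟩)
            · exact Finset.mem_union_right _ h
        have e3 := Finset.card_le_card hsub2
        have e4 := Finset.card_union_le (E \ Z) Q
        rw [hcard]
        omega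
  obtain ⟨F, E, h1, h2, h3, h4, -⟩ := key Z (Finset.Subset.refl _)
  exact ⟨F, h1, h2, h3, h4⟩

end H61M
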