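import Pool.Agent.Lib.H47G.Final

/-!
# Massed pairs and arbitrary partitions of the roots: definitions

Board h61m of helper61 (MP_dd17fe_co, Q2).  The theorem of `Pool/Agent/Lib/H47G` on massed pairs
is generalised from partitions of the root set into two parts to partitions into any number of
parts.  Labels are natural numbers: the part of the root `z` is `φ z`.

Everything follows the files `H47G/Massed.lean`, `H47G/Main.lean`, `H47G/Final.lean` of helper47
with `Knit` replaced by `KnitAll`; only the dense core is new.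
-/

open Classical H47G

namespace H61M

/-- For every labelling `φ` of the vertices there are disjoint connected subsets `F l` of `S`
(`l` a label) such that every `z ∈ Z` lies in `F (φ z)`. -/
def KnitAll {V : Type} (G : SimpleGraph V) (S Z : Finset V) : Prop :=
  ∀ φ : V → ℕ, ∃ F : ℕ → Finset V, (∀ l, F l ⊆ S) ∧ (∀ l, Conn G (F l)) ∧
    (∀ l l', l ≠ l' → Disjoint (F l) (F l')) ∧ ∀ z ∈ Z, z ∈ F (φ z)

/-- The induction hypothesis. -/
def IHA (V : Type) (x m n : ℕ) : Prop :=
  ∀ (G : SimpleGraph V) (X H : Finset V), H.card < n → X.card ≤ x → Massed m G X H →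
    KnitAll G (X ∪ H) X

/-- Any two vertices of `K` can be joined in `K` by at most four vertices which avoid a given set
of at most `5x` vertices. -/
def Link4 {V : Type} (G : SimpleGraph V) (K : Finset V) (x : ℕ) : Prop :=
  ∀ u ∈ K, ∀ w ∈ K, ∀ B : Finset V, B.card ≤ 5 * x →
    ∃ Q ⊆ K, Q.card ≤ 4 ∧ Disjoint Q B ∧ Conn G (insert u (insert w Q))

variable {V : Type} {G G' : SimpleGraph V}

theorem KnitAll.mono {S S' Z : Finset V} (h : KnitAll G S Z) (hS : S ⊆ S')
    (hG : ∀ a b, G.Adj a b → G'.Adj a b) : KnitAll G' S' Z := by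
  intro φ
  obtain ⟨F, h1, h2, h3, h4⟩ := h φ
  exact ⟨F, fun l ↦ (h1 l).trans hS, fun l ↦ (h2 l).mono fun a _ b _ ↦ hG a b, h3, h4⟩

end H61M
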