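import Mathlib

/-! # Chunk R2 of board h61m: arithmetic. -/

namespace H61M

/-- Take `μ = ⌈7 √(j / i)⌉₊` and `k = 2 i + 1 + (j - 1) / μ`: then `i μ ≤ 7 √(i j) + i` and
`(j - 1) / μ ≤ √(i j) / 7`, so `49 k + 1 + i ≤ 99 i + 50 + 7 √(i j)` and
`i μ + i + 4 k ≤ 10 i + 4 + (7 + 4 / 7) √(i j)`. -/
theorem arithmetic3 {i j C : ℕ} (hi : 1 ≤ i) (hj : 1 ≤ j)
    (h : 8 * √((i : ℝ) * j) + 150 * i ≤ C) :
    ∃ k μ : ℕ, 1 ≤ μ ∧ 2 * i + 1 + (j - 1) / μ ≤ k ∧ 49 * k + 1 + i ≤ C ∧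
      i * μ + i + 4 * k ≤ C + 3 := by
  have hi' : (1 : ℝ) ≤ i := by exact_mod_cast hi
  have hj' : (1 : ℝ) ≤ j := by exact_mod_cast hj
  have hi0 : (0 : ℝ) < i := by linarith
  have hj0 : (0 : ℝ) < j := by linarith
  obtain ⟨s, hs⟩ : ∃ s : ℝ, s = √((i : ℝ) * j) := ⟨_, rfl⟩
  obtain ⟨t, ht⟩ : ∃ t : ℝ, t = s / i := ⟨_, rfl⟩
  have hs0 : 0 < s := by rw [hs]; positivity
  have hss : s * s = i * j := by rw [hs]; exact Real.mul_self_sqrt (by positivity)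
  have ht0 : 0 < t := by rw [ht]; positivity
  have hst : (i : ℝ) * t = s := by rw [ht]; field_simp
  have hjt : (j : ℝ) = s * t := by
    rw [ht]; field_simp; linarith [hss]
  rw [← hs] at h
  obtain ⟨μ, hμ⟩ : ∃ μ : ℕ, μ = ⌈7 * t⌉₊ := ⟨_, rfl⟩
  have hμ1 : 7 * t ≤ (μ : ℝ) := by rw [hμ]; exact Nat.le_ceil _
  have hμ2 : (μ : ℝ) < 7 * t + 1 := by
    rw [hμ]; exact Nat.ceil_lt_add_one (by positivity)
  have hμ0 : 1 ≤ μ := by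
    rw [hμ]; exact Nat.one_le_ceil_iff.2 (by positivity)
  have hμ0' : (0 : ℝ) < μ := by exact_mod_cast hμ0
  have hq : (((j - 1) / μ : ℕ) : ℝ) ≤ s / 7 := by
    calc (((j - 1) / μ : ℕ) : ℝ) ≤ ((j - 1 : ℕ) : ℝ) / μ := Nat.cast_div_le
      _ ≤ (j : ℝ) / μ := by
        apply div_le_div_of_nonneg_right _ hμ0'.le
        exact_mod_cast Nat.sub_le j 1
      _ ≤ s / 7 := by
        rw [div_le_div_iff₀ hμ0' (by norm_num), hjt]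
        nlinarith [mul_le_mul_of_nonneg_left hμ1 hs0.le]
  have hiμ : (i : ℝ) * μ ≤ 7 * s + i := by
    nlinarith [mul_le_mul_of_nonneg_left hμ2.le hi0.le]
  refine ⟨2 * i + 1 + (j - 1) / μ, μ, hμ0, le_rfl, ?_, ?_⟩
  · have : ((49 * (2 * i + 1 + (j - 1) / μ) + 1 + i : ℕ) : ℝ) ≤ (C : ℝ) := by
      push_cast
      linarith
    exact_mod_cast this
  · have : ((i * μ + i + 4 * (2 * i + 1 + (j - 1) / μ) : ℕ) : ℝ) ≤ ((C + 3 : ℕ) : ℝ) := by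
      push_cast
      linarith
    exact_mod_cast this

end H61M
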