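import Pool.Agent.Lib.H61L.Final
import Pool.Agent.Lib.H61M.Main
import Pool.Agent.Lib.H61M.R2

/-!
# Linking many small sets and a large set, after deleting vertices
-/

open Classical H47G H61L

namespace H61M

section

variable {V : Type} [Fintype V] {G : SimpleGraph V} {r : ℕ}

theorem linkA_all {i j C : ℕ} (hi : 1 ≤ i) (hj : 1 ≤ j)
    (h : 8 * √((i : ℝ) * j) + 150 * i ≤ C) (hG : RConn G (j + C)) {S₁ S₂ : Finset V}
    (h1 : S₁.card = i) (h2 : S₂.card = j) (hd : Disjoint S₁ S₂) (φ : V → ℕ) :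
    ∃ (FF : ℕ → Finset V) (FT : Finset V), (∀ x ∈ S₁, x ∈ FF (φ x)) ∧ S₂ ⊆ FT ∧
      (∀ l, Disjoint (FF l) FT) ∧ (∀ l l', l ≠ l' → Disjoint (FF l) (FF l')) ∧
      (∀ l, Conn G (FF l)) ∧ Conn G FT := by
  obtain ⟨k, μ, k1, k2, k3, k4⟩ := arithmetic3 hi hj h
  subst h1 h2
  exact linkA hG hd hi hj k1 k2 (by omega) (by omega) φ

end

section

variable {V : Type} {G : SimpleGraph V}

/-- Connected sets of an induced subgraph. -/
private theorem fa_conn_map {s : Set V} {F : Finset s} (hF : Conn (G.induce s) F) :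
    Conn G (F.map (Function.Embedding.subtype _)) := by
  intro A hA hn hne
  obtain ⟨a, ha, b, hb, hbA, hab⟩ := hF (F.filter (fun z : s ↦ (z : V) ∈ A))
    (Finset.filter_subset _ _)
    (by
      obtain ⟨x, hx⟩ := hn
      obtain ⟨y, hy, hyx⟩ := Finset.mem_map.1 (hA hx)
      refine ⟨y, Finset.mem_filter.2 ⟨hy, ?_⟩⟩
      have : (y : V) = x := hyx
      rwa [this])
    (by
      intro heq
      apply hne
      refine Finset.Subset.antisymm hA fun x hx ↦ ?_
      obtain ⟨y, hy, hyx⟩ := Finset.mem_map.1 hx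
      have h1 : y ∈ F.filter (fun z : s ↦ (z : V) ∈ A) := by
        rw [heq]
        exact hy
      have h2 : (y : V) = x := hyx
      rw [← h2]
      exact (Finset.mem_filter.1 h1).2)
  refine ⟨(a : V), (Finset.mem_filter.1 ha).2, (b : V), Finset.mem_map.2 ⟨b, hb, rfl⟩,
    fun h ↦ hbA (Finset.mem_filter.2 ⟨hb, h⟩), ?_⟩
  simpa using hab

variable [Fintype V]

/-- Deleting vertices. -/
private theorem fa_rel {r : ℕ} {T : Finset V} (hG : RConn G (r + T.card)) :
    RConn (G.induce {v : V | v ∉ T}) r := by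
  have hinj : Function.Injective (Subtype.val : {v : V | v ∉ T} → V) := Subtype.val_injective
  refine ⟨?_, ?_⟩
  · have h1 := hG.card
    have h2 : Fintype.card {v : V | v ∉ T} = Fintype.card V - T.card := by
      rw [← Finset.card_univ (α := V), ← Finset.card_sdiff_of_subset (Finset.subset_univ T),
        Fintype.card_of_subtype]
      intro x
      simp
    omega
  · intro Z U hZ hn hd hcl b hbZ
    have h3 := hG.cut (Z.map (Function.Embedding.subtype _) ∪ T)
      (U.map (Function.Embedding.subtype _)) (by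
        have := Finset.card_union_le (Z.map (Function.Embedding.subtype _)) T
        rw [Finset.card_map] at this
        omega) (by simpa using hn) (by
        rw [Finset.disjoint_left]
        intro x hx hx'
        obtain ⟨u, hu, hux⟩ := Finset.mem_map.1 hx
        have hux' : (u : V) = x := hux
        rcases Finset.mem_union.1 hx' with h | h
        · obtain ⟨z, hz, hzx⟩ := Finset.mem_map.1 h
          have hzx' : (z : V) = x := hzx
          have : u = z := hinj (hux'.trans hzx'.symm)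
          exact Finset.disjoint_left.1 hd hu (this ▸ hz)
        · exact u.2 (hux' ▸ h)) (by
        intro a ha c hc hcU hac
        obtain ⟨u, hu, rfl⟩ := Finset.mem_map.1 ha
        rw [Finset.mem_union, not_or] at hc
        refine hcl u hu ⟨c, hc.2⟩ (fun h ↦ hc.1 (Finset.mem_map.2 ⟨_, h, rfl⟩))
          (fun h ↦ hcU (Finset.mem_map.2 ⟨_, h, rfl⟩)) ?_
        simpa using hac)
      (b : V) (by
        rw [Finset.mem_union, not_or]
        refine ⟨fun h ↦ ?_, b.2⟩
        obtain ⟨z, hz, hzb⟩ := Finset.mem_map.1 h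
        have : z = b := hinj hzb
        exact hbZ (this ▸ hz))
    obtain ⟨u, hu, hub⟩ := Finset.mem_map.1 h3
    have : u = b := hinj hub
    exact this ▸ hu

/-- Linking outside a set `T`. -/
theorem linkA_rel {i j C : ℕ} (hi : 1 ≤ i) (hj : 1 ≤ j)
    (h : 8 * √((i : ℝ) * j) + 150 * i ≤ C) {T : Finset V} (hG : RConn G (j + C + T.card))
    {S₁ S₂ : Finset V} (h1 : S₁.card = i) (h2 : S₂.card = j) (hd : Disjoint S₁ S₂)
    (hT : Disjoint (S₁ ∪ S₂) T) (φ : V → ℕ) :
    ∃ (FF : ℕ → Finset V) (FT : Finset V), (∀ l, FF l ⊆ Finset.univ \ T) ∧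
      FT ⊆ Finset.univ \ T ∧ (∀ x ∈ S₁, x ∈ FF (φ x)) ∧ S₂ ⊆ FT ∧
      (∀ l, Disjoint (FF l) FT) ∧ (∀ l l', l ≠ l' → Disjoint (FF l) (FF l')) ∧
      (∀ l, Conn G (FF l)) ∧ Conn G FT := by
  have hsub : ∀ S : Finset V, Disjoint S T → (S.subtype fun v ↦ v ∈ {v : V | v ∉ T}).map
      (Function.Embedding.subtype _) = S := by
    intro S hS
    rw [Finset.subtype_map, Finset.filter_true_of_mem]
    intro x hx
    exact Finset.disjoint_left.1 hS hx
  have hS1 : Disjoint S₁ T := hT.mono_left Finset.subset_union_left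
  have hS2 : Disjoint S₂ T := hT.mono_left Finset.subset_union_right
  have hcard : ∀ S : Finset V, Disjoint S T →
      (S.subtype fun v ↦ v ∈ {v : V | v ∉ T}).card = S.card := by
    intro S hS
    rw [← Finset.card_map (Function.Embedding.subtype _), hsub S hS]
  obtain ⟨FF, FT, f1, f2, f3, f4, f5, f6⟩ := linkA_all hi hj h (fa_rel hG)
    (S₁ := S₁.subtype fun v ↦ v ∈ {v : V | v ∉ T}) (S₂ := S₂.subtype fun v ↦ v ∈ {v : V | v ∉ T})
    ((hcard S₁ hS1).trans h1) ((hcard S₂ hS2).trans h2) (by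
      rw [Finset.disjoint_left]
      intro x hx hx'
      exact Finset.disjoint_left.1 hd (Finset.mem_subtype.1 hx) (Finset.mem_subtype.1 hx'))
    (fun v ↦ φ v)
  have hout : ∀ F : Finset {v : V | v ∉ T},
      F.map (Function.Embedding.subtype _) ⊆ Finset.univ \ T := by
    intro F x hx
    obtain ⟨y, -, rfl⟩ := Finset.mem_map.1 hx
    exact Finset.mem_sdiff.2 ⟨Finset.mem_univ _, y.2⟩
  refine ⟨fun l ↦ (FF l).map (Function.Embedding.subtype _),
    FT.map (Function.Embedding.subtype _), fun l ↦ hout _, hout _, ?_, ?_, ?_, ?_,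
    fun l ↦ fa_conn_map (f5 l), fa_conn_map f6⟩
  · intro x hx
    have hxT : x ∉ T := Finset.disjoint_left.1 hS1 hx
    exact Finset.mem_map.2 ⟨⟨x, hxT⟩, f1 ⟨x, hxT⟩ (Finset.mem_subtype.2 hx), rfl⟩
  · rw [← hsub S₂ hS2]
    exact Finset.map_subset_map.2 f2
  · exact fun l ↦ (Finset.disjoint_map _).2 (f3 l)
  · exact fun l l' hl ↦ (Finset.disjoint_map _).2 (f4 l l' hl)

end

end H61M
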